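import Pool.Agent.H62.QM.Desc

/-!
# The 2-Selmer group over all the admissible fields

Adapted from `N922/PQ/Big6.lean` of the library (helper922).
-/

set_option autoImplicit false
set_option linter.all false

open Polynomial IsDedekindDomain WeierstrassCurve WeierstrassCurve.Affine NumberField
open Pool.Agent.TH115.GD
open scoped Classical IntermediateField

namespace Pool.Agent.H62.QM

open Pool.Agent.N874.PP (Tup chA chB gq tau Two Ev Sq1 U0 sW IsBeta Rt)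
open Pool.Agent.N874.PM (PLoc Lies SelR ShaR)
open Pool.Agent.N922.PQ

/-- The valuation of `2` if `2` does not divide the discriminant. -/
theorem val_two_un {M : Type} [Field M] [NumberField M] [IsGalois ℚ M]
    (h2 : ¬ (2 : ℤ) ∣ discr M) (w : HeightOneSpectrum (𝓞 M)) (hw : Ov 2 w) :
    w.valuation M 2 = WithZero.exp (-1 : ℤ) := by
  obtain ⟨v, hv⟩ := val_rat Int.prime_two h2 w hw
  have e : (2 : M) = algebraMap ℚ M ((2 : ℤ) : ℚ) := by simp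
  refine le_antisymm (val_le_exp w two_ne_zero ?_) ?_
  · have := (ov_val (L := M) 2 w).1 hw
    simpa using this
  · rw [e, hv]
    exact val_sqfree Int.prime_two.irreducible.squarefree v

/-- The condition on an element of `L` proved by the theorem in the cubic field. -/
def Hsel {L : Type} [Field L] [NumberField L] (a b : ℤ) (J : Finset ℤ) (θ : L) : Prop :=
  ∀ α : L, α ≠ 0 → IsSquare (Algebra.norm ℚ α) → Loc2 a b θ α →
      (∀ 𝔓 : HeightOneSpectrum (𝓞 L), (∀ Q ∈ J, ¬ Ov Q 𝔓) → Ev 𝔓 α) →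
      (∀ Q ∈ J, ∀ 𝔓 : HeightOneSpectrum (𝓞 L), Ov Q 𝔓 → 𝔓.valuation L θ = 1 →
        U0 𝔓 ((Q : L) * θ) α) →
      (∀ Q ∈ J, ∀ 𝔓 : HeightOneSpectrum (𝓞 L), Ov Q 𝔓 → 𝔓.valuation L θ < 1 → Ev 𝔓 α) →
      IsSquare α

section abs

variable {L M Ω : Type} [Field L] [NumberField L] [Field M] [NumberField M]
  [Field Ω] [NumberField Ω] [Algebra L Ω] [Algebra M Ω] [IsGalois ℚ M]

include Ω in
theorem sel_abs (H : Parts2) (hI : S_INT) {a b : ℤ} {J : Finset ℤ} {θ : L} (hc : IsCub a b θ)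
    (hD : Dat a b J) (hsel : Hsel a b J θ) {n : ℕ} (hn : Module.finrank ℚ M = 2 ^ n)
    (hM : Fld M a b J) (hΩ : Module.finrank M Ω = 3) (htop : M⟮algebraMap L Ω θ⟯ = ⊤) :
    SelR (𝓞 M) (sW (((a * (∏ Q ∈ J, Q) ^ 2 : ℤ)) : M) (((b * (∏ Q ∈ J, Q) ^ 3 : ℤ)) : M)) := by
  have h6M : (6 : M) ≠ 0 := by norm_num
  have h2K : (2 : ℚ) ≠ 0 := by norm_num
  obtain ⟨ha, hb⟩ := odd_of hD.n2
  have hur := val_two_un hM.two
  obtain ⟨γ, hγ0⟩ := Field.exists_primitive_element ℚ M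
  have hγ : L⟮algebraMap M Ω γ⟯ = ⊤ := top_up (K := ℚ) hγ0 htop
  have hnr : ∀ w : HeightOneSpectrum (𝓞 M), Ov 2 w → ∀ t : w.adicCompletion M,
      t ^ 3 + (a : w.adicCompletion M) * t + (b : w.adicCompletion M) ≠ 0 :=
    fun w hw => H.nr M (𝓞 M) n hn w hw a b ha hb
  have hD1 : 0 < (∏ Q ∈ J, Q) := Finset.prod_pos fun Q hQ => (hD.j Q hQ).1.1
  have hD0 : (∏ Q ∈ J, Q) ≠ 0 := hD1.ne'
  have hD8 : (∏ Q ∈ J, Q) % 8 = 1 := prod_mod8 fun Q hQ => (hD.j Q hQ).2.1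
  intro f hf h2f hloc
  obtain ⟨w₀, hw₀⟩ := exists_over (𝓞 M)
  have hirrD := irr_tw' (F := M) (a := a * (∏ Q ∈ J, Q) ^ 2) (b := b * (∏ Q ∈ J, Q) ^ 3)
    (fun t ht => by
      apply no_root_tw' (hnr w₀ hw₀) hD0 (algebraMap M _ t)
      have h1 := congrArg (algebraMap M (w₀.adicCompletion M)) ht
      rw [map_zero, map_add, map_add, map_mul, map_pow, map_intCast, map_intCast] at h1
      exact h1)
  have hdisc : 4 * (((a * (∏ Q ∈ J, Q) ^ 2 : ℤ)) : M) ^ 3 +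
      27 * (((b * (∏ Q ∈ J, Q) ^ 3 : ℤ)) : M) ^ 2 ≠ 0 := by
    have e : 4 * (((a * (∏ Q ∈ J, Q) ^ 2 : ℤ)) : M) ^ 3 +
      27 * (((b * (∏ Q ∈ J, Q) ^ 3 : ℤ)) : M) ^ 2 =
        (((∏ Q ∈ J, Q) ^ 6 * dsc a b : ℤ) : M) := by
      simp only [dsc, Int.cast_mul, Int.cast_add, Int.cast_pow, Int.cast_ofNat]
      ring
    rw [e, Int.cast_ne_zero]
    exact mul_ne_zero (pow_ne_zero _ hD0) hD.sq.ne_zero
  have hroot : (algebraMap L Ω θ) ^ 3 + (a : Ω) * algebraMap L Ω θ + (b : Ω) = 0 := by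
    have h1 := congrArg (algebraMap L Ω) hc.root
    rw [map_zero, map_add, map_add, map_mul, map_pow, map_intCast, map_intCast] at h1
    exact h1
  have hmin : minpoly M (algebraMap L Ω θ) = ff M a b := by
    haveI : FiniteDimensional M Ω := FiniteDimensional.of_finrank_pos (by rw [hΩ]; norm_num)
    have hint : IsIntegral M (algebraMap L Ω θ) := Algebra.IsIntegral.isIntegral _
    have hd : minpoly M (algebraMap L Ω θ) ∣ ff M a b := by
      apply minpoly.dvd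
      simp only [ff, map_add, map_mul, map_pow, aeval_X, aeval_C, map_intCast]
      exact hroot
    have hdeg : (minpoly M (algebraMap L Ω θ)).natDegree = 3 := by
      rw [(Field.primitive_element_iff_minpoly_natDegree_eq M _).1 htop, hΩ]
    exact (Polynomial.eq_of_monic_of_dvd_of_natDegree_le (minpoly.monic hint) (ff_monic M a b) hd
      (by rw [hdeg, ff_deg])).symm
  obtain ⟨β, hβ⟩ := H.p.gb M _ _ h6M hdisc hirrD f hf h2f
  obtain ⟨h, hh, hn'⟩ := H.p.gn M _ _ h6M hdisc hirrD f hf h2f β hβ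
  have hRt : Rt (((a * (∏ Q ∈ J, Q) ^ 2 : ℤ)) : M)
      (((b * (∏ Q ∈ J, Q) ^ 3 : ℤ)) : M)
      (((∏ Q ∈ J, Q : ℤ) : Ω) * algebraMap L Ω θ) := by
    unfold Rt
    rw [map_intCast, map_intCast]
    simp only [Int.cast_mul, Int.cast_pow]
    linear_combination ((∏ Q ∈ J, Q : ℤ) : Ω) ^ 3 * hroot
  have hn2 := hn' Ω _ hRt hΩ
  have hcnd := cn_top H.p.exq H.p.lie H.p.loc1 hc hD hM hγ (h := h)
    (fun w hw => H.p.glr M (𝓞 M) _ _ h6M hdisc f hf h2f β h hβ hh w (val_two hw) (hloc w)) hn2.1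
  have hc2 := c2w_sel (𝓞 M) H.p.glr2 H.sqd H.twg hD0 hD8 hnr hmin hdisc f hf h2f β h hβ hh hloc
  obtain ⟨c1, c2, c3⟩ := H.c2w L M Ω (𝓞 M) a b θ hD.sq.ne_zero hnr hc hΩ htop
  have hsq := H.p.tow n ℚ L M Ω h2K hn hc.rank hΩ
    (fun x => Cn a b J (algebraMap L Ω θ) x ∧ C2w M (𝓞 M) a b (algebraMap L Ω θ) x)
    (fun x hx => ⟨cn_sq hx, c1 x⟩)
    (fun x y hx hy h h' => ⟨cn_mul H.p.cls hD
      (fun Q hQ 𝔓 h1 h2 => odd_at H.p.exq hc hD hM hγ hQ 𝔓 h1 h2) hx hy h.1 h'.1,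
        c2 x y h.2 h'.2⟩)
    (fun σ x h => ⟨cn_sig H.p.sig rfl σ h.1, c3 σ x h.2⟩)
    (fun x hx hC hN => base_cn H.p.p3 hI hsel hc hD hM hγ hx hC.1
      (base_two (𝓞 M) H.ud hc ha hD.h4 hur hx hN hC.2) hN)
    _ hn2.1 ⟨hcnd, hc2⟩ hn2.2
  exact H.p.gt M _ _ h6M hdisc hirrD f hf h2f β h hβ hh _ _ hRt hΩ hsq

end abs

/-- The theorem on the Selmer group over `M`. -/
theorem sel_all (H : Parts2) (hI : S_INT) {L : Type} [Field L] [NumberField L] {a b : ℤ}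
    {J : Finset ℤ} {θ : L} (hc : IsCub a b θ)
    (hu : ∀ (Ω : Type) [Field Ω] [CharZero Ω] (t : Ω), t ^ 3 + (a : Ω) * t + (b : Ω) = 0 →
        ∃ φ : L →+* Ω, φ θ = t)
    (hD : Dat a b J) (hsel : Hsel a b J θ) (M : Type) [Field M] [NumberField M] [IsGalois ℚ M]
    {n : ℕ} (hn : Module.finrank ℚ M = 2 ^ n) (hM : Fld M a b J) :
    SelR (𝓞 M) (sW (((a * (∏ Q ∈ J, Q) ^ 2 : ℤ)) : M) (((b * (∏ Q ∈ J, Q) ^ 3 : ℤ)) : M)) := by
  obtain ⟨ha, hb⟩ := odd_of hD.n2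
  obtain ⟨w₀, hw₀⟩ := exists_over (𝓞 M)
  have hnr := H.nr M (𝓞 M) n hn w₀ hw₀ a b ha hb
  have hnrM : ∀ t : M, t ^ 3 + (a : M) * t + (b : M) ≠ 0 := by
    intro t ht
    apply hnr (algebraMap M _ t)
    have h1 := congrArg (algebraMap M (w₀.adicCompletion M)) ht
    rw [map_zero, map_add, map_add, map_mul, map_pow, map_intCast, map_intCast] at h1
    exact h1
  have hirrM : Irreducible (ff M a b) := irr_tw' hnrM
  obtain ⟨Ω, iF', iA', t, ht, hr, htop, hfin⟩ := exists_field hirrM (ff_monic M a b) (ff_deg M a b)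
  haveI : CharZero Ω := charZero_of_injective_algebraMap (algebraMap M Ω).injective
  haveI : FiniteDimensional ℚ Ω := FiniteDimensional.trans ℚ M Ω
  haveI : NumberField Ω := ⟨⟩
  have ht' : t ^ 3 + (a : Ω) * t + (b : Ω) = 0 := by
    simp only [ff, map_add, map_mul, map_pow, aeval_X, aeval_C, map_intCast] at ht
    exact ht
  obtain ⟨φ, hφ⟩ := hu Ω t ht'
  letI : Algebra L Ω := φ.toAlgebra
  have hroot : algebraMap L Ω θ = t := hφ
  have htop' : M⟮algebraMap L Ω θ⟯ = ⊤ := by rw [hroot]; exact htop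
  exact sel_abs (Ω := Ω) H hI hc hD hsel hn hM hr htop'

end Pool.Agent.H62.QM
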