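import Pool.Agent.H62.QM.Sel
import Pool.Graph.R_pool_sql_team_seeded_63374d34.N922.PQ.Final2

/-!
# Counting

Adapted from `N922/PQ/Cnt2.lean` of the library (helper922).
-/

set_option autoImplicit false
set_option linter.all false

open Polynomial IsDedekindDomain WeierstrassCurve WeierstrassCurve.Affine NumberField
open Pool.Agent.TH115.GD
open scoped Classical IntermediateField

namespace Pool.Agent.H62.QM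

open Pool.Agent.N874.PP (Tup chA chB gq tau Two Ev Sq1 U0 sW IsBeta Rt)
open Pool.Agent.N874.PM (PLoc Lies SelR ShaR)
open Pool.Agent.N922.PQ

/-- The admissible fields for the curve `p`. -/
structure AdmF (K : Type) [Field K] [NumberField K] (p : ℤ × ℤ) : Prop where
  gal : IsGalois ℚ K
  deg : ∃ n : ℕ, Module.finrank ℚ K = 2 ^ n
  ram : ∀ ℓ : ℕ, ℓ.Prime → (ℓ : ℤ) ∣ discr K → ℓ ≠ 2 ∧
    ∀ z : ℤ, ¬ (ℓ : ℤ) ∣ z ^ 3 + p.1 * z + p.2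
  res : ∀ ℓ : ℕ, ℓ.Prime → (ℓ : ℤ) ^ 2 ∣ p.1 → (ℓ : ℤ) ^ 3 ∣ p.2 → ∀ 𝔭 : Ideal (𝓞 K),
    𝔭.IsPrime → (ℓ : 𝓞 K) ∈ 𝔭 → ∀ x : 𝓞 K, x ^ (ℓ ^ 2) - x ∈ 𝔭

/-- Good over all the admissible fields. -/
def AllGood (p : ℤ × ℤ) : Prop :=
  (∀ z : ℚ, z ^ 3 + p.1 * z + p.2 ≠ 0) ∧
  ∀ (K : Type) [Field K] [NumberField K], AdmF K p → GoodV (M := K) (𝓞 K) p

theorem dvd_nat_of {P : ℤ} (hP : Prime P) {m : ℤ} (h : P ∣ m) :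
    ∃ ℓ : ℕ, ℓ.Prime ∧ (ℓ : ℤ) ∣ m ∧ (ℓ : ℤ) = |P| :=
  ⟨P.natAbs, Int.prime_iff_natAbs_prime.1 hP, Int.natAbs_dvd.2 h, by simp⟩

theorem fld_of {a b : ℤ} {J : Finset ℤ} (hD : Dat a b J) {K : Type} [Field K] [NumberField K]
    (h : AdmF K (a * (∏ Q ∈ J, Q) ^ 2, b * (∏ Q ∈ J, Q) ^ 3)) : Fld K a b J := by
  refine ⟨fun P hP hd z hz => ?_, fun h2 => (h.ram 2 Nat.prime_two h2).1 rfl,
    fun Q hQ w hw x => ?_⟩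
  · obtain ⟨ℓ, hℓ, hℓd, hℓP⟩ := dvd_nat_of hP hd
    apply (h.ram ℓ hℓ hℓd).2 ((∏ Q ∈ J, Q) * z)
    have e : ((∏ Q ∈ J, Q) * z) ^ 3 + (a * (∏ Q ∈ J, Q) ^ 2) * ((∏ Q ∈ J, Q) * z) +
        b * (∏ Q ∈ J, Q) ^ 3 = (∏ Q ∈ J, Q) ^ 3 * (z ^ 3 + a * z + b) := by ring
    show (ℓ : ℤ) ∣ ((∏ Q ∈ J, Q) * z) ^ 3 + (a * (∏ Q ∈ J, Q) ^ 2) * ((∏ Q ∈ J, Q) * z) +
        b * (∏ Q ∈ J, Q) ^ 3
    rw [e, hℓP, abs_dvd]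
    exact Dvd.dvd.mul_left hz _
  · obtain ⟨hpr, -, -, -⟩ := hD.j Q hQ
    have hQd : Q ∣ ∏ Q ∈ J, Q := Finset.dvd_prod_of_mem _ hQ
    have hℓ : Nat.Prime Q.natAbs := Int.prime_iff_natAbs_prime.1 hpr.2
    have e : ((Q.natAbs : ℕ) : ℤ) = Q := Int.natAbs_of_nonneg hpr.1.le
    refine h.res Q.natAbs hℓ ?_ ?_ w.asIdeal w.isPrime ?_ x
    · rw [e]
      exact Dvd.dvd.mul_left (pow_dvd_pow_of_dvd hQd 2) _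
    · rw [e]
      exact Dvd.dvd.mul_left (pow_dvd_pow_of_dvd hQd 3) _
    · have h1 : (((Q.natAbs : ℕ) : ℤ) : 𝓞 K) ∈ w.asIdeal := by rw [e]; exact hw
      rwa [Int.cast_natCast] at h1

theorem good_of (H : Parts2) (hI : S_INT) (hGFR : Pool.Agent.N874.PM.S_GFR)
    (hFINM : S_FINM) (hTOR : S_TOR) {L : Type} [Field L] [NumberField L] {a b : ℤ}
    {J : Finset ℤ} {θ : L} (hc : IsCub a b θ)
    (hu : ∀ (Ω : Type) [Field Ω] [CharZero Ω] (t : Ω), t ^ 3 + (a : Ω) * t + (b : Ω) = 0 →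
        ∃ φ : L →+* Ω, φ θ = t)
    (hD : Dat a b J) (hsel : Hsel a b J θ) (K : Type) [Field K] [NumberField K]
    (hK : AdmF K (a * (∏ Q ∈ J, Q) ^ 2, b * (∏ Q ∈ J, Q) ^ 3)) :
    GoodV (M := K) (𝓞 K) (a * (∏ Q ∈ J, Q) ^ 2, b * (∏ Q ∈ J, Q) ^ 3) := by
  haveI := hK.gal
  obtain ⟨n, hn⟩ := hK.deg
  have hF := fld_of hD hK
  have hs := sel_all H hI hc hu hD hsel K hn hF
  have hD1 : 0 < (∏ Q ∈ J, Q) := Finset.prod_pos fun Q hQ => (hD.j Q hQ).1.1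
  have hD0 : (∏ Q ∈ J, Q) ≠ 0 := hD1.ne'
  have hD8 : (∏ Q ∈ J, Q) % 8 = 1 := prod_mod8 fun Q hQ => (hD.j Q hQ).2.1
  have h6M : (6 : K) ≠ 0 := by norm_num
  have hdM : 4 * (((a * (∏ Q ∈ J, Q) ^ 2 : ℤ)) : K) ^ 3 +
      27 * (((b * (∏ Q ∈ J, Q) ^ 3 : ℤ)) : K) ^ 2 ≠ 0 := by
    have e : 4 * (((a * (∏ Q ∈ J, Q) ^ 2 : ℤ)) : K) ^ 3 +
      27 * (((b * (∏ Q ∈ J, Q) ^ 3 : ℤ)) : K) ^ 2 =
        (((∏ Q ∈ J, Q) ^ 6 * dsc a b : ℤ) : K) := by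
      simp only [dsc, Int.cast_mul, Int.cast_add, Int.cast_pow, Int.cast_ofNat]
      ring
    rw [e, Int.cast_ne_zero]
    exact mul_ne_zero (pow_ne_zero _ hD0) hD.sq.ne_zero
  obtain ⟨h2, h3⟩ := hGFR K (𝓞 K) _ _ h6M hdM hs
  have hfin := hFINM K _ _ hdM h2
  obtain ⟨ha, hb⟩ := odd_of hD.n2
  have hAodd : Odd (a * (∏ Q ∈ J, Q) ^ 2) := by
    refine ha.mul (Odd.pow ?_)
    rw [Int.odd_iff]
    omega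
  have h4 : (4 : ℤ) ∣ a * (∏ Q ∈ J, Q) ^ 2 - b * (∏ Q ∈ J, Q) ^ 3 := by
    obtain ⟨k, hk⟩ : ∃ k, (∏ Q ∈ J, Q) = 8 * k + 1 := ⟨(∏ Q ∈ J, Q) / 8, by omega⟩
    obtain ⟨l, hl⟩ := hD.h4
    have e : a = b + 4 * l := by linarith
    rw [hk, e]
    exact ⟨l * (8 * k + 1) ^ 2 - 2 * k * b * (8 * k + 1) ^ 2, by ring⟩
  obtain ⟨w₀, hw₀⟩ := exists_over (𝓞 K)
  have htor := hTOR K (𝓞 K) w₀ (val_two_un hF.two w₀ hw₀) _ _ hAodd h4 hfin (by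
    haveI := hfin
    exact odd_card (G := Pt (sW (((a * (∏ Q ∈ J, Q) ^ 2 : ℤ)) : K)
      (((b * (∏ Q ∈ J, Q) ^ 3 : ℤ)) : K)) K) h2)
  exact ⟨hs, htor, h3⟩

/-- From a curve which is not bad. -/
theorem exists_J (H : Parts2) (hI : S_INT) (hGFR : Pool.Agent.N874.PM.S_GFR)
    (hFINM : S_FINM) (hTOR : S_TOR) {κ : ℕ} (hLB : LBk κ) {a b : ℤ} {X : ℕ}
    {S T : Finset ℤ} {s A B : ℤ → ℤ} (hS : GoodS S s) (hT : GoodT T A B)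
    (hF : Fam X S s T A B a b) (h4 : (4 : ℤ) ∣ a - b) (hnb : ¬ LBad κ X S s a b) :
    ∃ J ⊆ S, AllGood (a * (∏ Q ∈ J, Q) ^ 2, b * (∏ Q ∈ J, Q) ^ 3) := by
  have hnt2 : ∀ z : ℤ, ¬ (2 : ℤ) ∣ z ^ 3 + a * z + b := fam_nt hT hF hT.1
  have hnt3 : ∀ z : ℤ, ¬ (3 : ℤ) ∣ z ^ 3 + a * z + b := fam_nt hT hF hT.2.1
  obtain ⟨ha, hb⟩ := odd_of hnt2
  have hq : ∀ u : ℚ, u ^ 3 + (a : ℚ) * u + (b : ℚ) ≠ 0 := by
    intro u hu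
    apply no_root2 hnt2 (algebraMap ℚ ℚ_[2] u)
    have h1 := congrArg (algebraMap ℚ ℚ_[2]) hu
    rw [map_zero, map_add, map_add, map_mul, map_pow, map_intCast, map_intCast] at h1
    exact h1
  have hirr : Irreducible (ff ℚ a b) := irr_tw' hq
  obtain ⟨L, iF, iN, θ, hc, hu⟩ := exists_cub hirr
  obtain ⟨J, hJ, hsel⟩ := core2 (L := L) (𝓞 L) H.p.cls H.p.exq H.p.ns H.p.lin H.p.recp H.p.plm
    H.p.sd H.p.ttv hLB hc hS hT hF hnb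
  have hD : Dat a b J :=
    ⟨hF.sq, hnt2, hnt3, h4, fun Q hQ => ⟨(hS Q (hJ hQ)).1, (hS Q (hJ hQ)).2.1, hF.rb Q (hJ hQ),
      fam_ns hS hF (hJ hQ)⟩⟩
  have hD0 : (∏ Q ∈ J, Q) ≠ 0 := (Finset.prod_pos fun Q hQ => (hD.j Q hQ).1.1).ne'
  refine ⟨J, hJ, fun z hz => ?_, fun K _ _ hK => good_of H hI hGFR hFINM hTOR hc hu hD hsel K hK⟩
  refine no_root_tw' (F := ℚ) hq hD0 z ?_
  exact hz

/-- The main theorem from the parts; with a bound of order `X ^ 5`. -/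
theorem main5 (H : Parts2) (hI : S_INT) (hLB : S_LB) (hFAM : S_FAM2) (hBAD : S_BAD)
    (hTCH : S_TCH) (hGEN : S_GEN) (hSPL : S_SPL) (hGFR : Pool.Agent.N874.PM.S_GFR)
    (hFINM : S_FINM) (hTOR : S_TOR) (hCRV : S_CRV) :
    ∃ (P X₀ : ℕ) (c : ℝ), 0 < c ∧ 1 ≤ P ∧ ∀ X : ℕ, X₀ ≤ X → ∀ H : ℕ, 27 * (X * P) ^ 6 ≤ H →
      c * (X : ℝ) ^ 5 ≤ ({p : ℤ × ℤ | Crv H p.1 p.2 ∧ AllGood p}.ncard : ℝ) := by
  obtain ⟨κ, hLB'⟩ := hLB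
  haveI hgal : @IsGalois ℚ _ ℚ _ DivisionRing.toRatAlgebra := by
    have e : (DivisionRing.toRatAlgebra : Algebra ℚ ℚ) = Algebra.id ℚ := Subsingleton.elim _ _
    rw [e]
    infer_instance
  obtain ⟨γ, g, δ, hG, hdeg⟩ := hGEN ℚ
  obtain ⟨T, A, B, -, hT⟩ := hTCH ∅ (by simp)
  obtain ⟨S, s, c, hS, hdis, -, hc, X₀, hX₀⟩ := good_card2 hFAM hBAD κ hT
    (fun Q => SplitMod Q g) (hSPL ℚ γ g δ hG hdeg T)
  have hSpos : 0 < ∏ Q ∈ S, Q := Finset.prod_pos fun Q hQ => (hS Q hQ).1.1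
  refine ⟨(∏ Q ∈ S, Q).toNat, X₀, c / 2 ^ S.card,
    by positivity, by omega, fun X hX Hh hHh => ?_⟩
  have hN := hX₀ X hX
  set Hs := {p : ℤ × ℤ | Crv Hh p.1 p.2 ∧ AllGood p} with hH
  set G := {p : ℤ × ℤ | (Fam X S s T A B p.1 p.2 ∧ (4 : ℤ) ∣ p.1 - p.2) ∧
    ¬ LBad κ X S s p.1 p.2} with hG'
  have hHf : Hs.Finite := (crv_fin Hh).subset fun p hp => hp.1
  have hbd : 27 * ((X : ℤ) * ∏ Q ∈ S, Q) ^ 6 ≤ Hh := by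
    have h1 : ((27 * (X * (∏ Q ∈ S, Q).toNat) ^ 6 : ℕ) : ℤ) ≤ Hh := by exact_mod_cast hHh
    have e1 : (((∏ Q ∈ S, Q).toNat : ℕ) : ℤ) = ∏ Q ∈ S, Q := Int.toNat_of_nonneg hSpos.le
    rw [Nat.cast_mul, Nat.cast_pow, Nat.cast_mul, e1] at h1
    exact_mod_cast h1
  have hcard := card_fib hHf S
    (fun (J : Finset ℤ) (p : ℤ × ℤ) => (p.1 * (∏ Q ∈ J, Q) ^ 2, p.2 * (∏ Q ∈ J, Q) ^ 3)) (G := G) (by
      rintro p ⟨⟨hpF, hp4⟩, hnb⟩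
      obtain ⟨J, hJ, hgood⟩ := exists_J H hI hGFR hFINM hTOR hLB' hS hT hpF hp4 hnb
      exact ⟨J, hJ, hCRV X Hh S T s A B p.1 p.2 hS hT hpF J hJ hbd, hgood⟩) (by
      intro J hJ x hx y hy hxy
      have hD0 : (∏ Q ∈ J, Q) ≠ 0 := by
        rw [Finset.prod_ne_zero_iff]
        exact fun Q hQ => (hS Q (hJ hQ)).1.2.ne_zero
      rw [Prod.mk.injEq] at hxy
      exact twist_inj hD0 hxy.1 hxy.2)
  have hcard' : (G.ncard : ℝ) ≤ 2 ^ S.card * Hs.ncard := by exact_mod_cast hcard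
  calc c / 2 ^ S.card * (X : ℝ) ^ 5
      = c * (X : ℝ) ^ 5 / 2 ^ S.card := by ring
    _ ≤ (G.ncard : ℝ) / 2 ^ S.card := by gcongr
    _ ≤ (2 ^ S.card * Hs.ncard) / 2 ^ S.card := by gcongr
    _ = Hs.ncard := by field_simp

/-- A positive proportion of all elliptic curves over `ℚ` is good over all the admissible fields. -/
theorem final_all :
    ∃ c : ℝ, 0 < c ∧ ∃ H₀ : ℕ, ∀ H ≥ H₀, {p : ℤ × ℤ | Crv H p.1 p.2}.Finite ∧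
    c * ({p : ℤ × ℤ | Crv H p.1 p.2}.ncard : ℝ) ≤
      ({p : ℤ × ℤ | Crv H p.1 p.2 ∧ AllGood p}.ncard : ℝ) := by
  obtain ⟨P, X₀, c, hc, hP, h⟩ := main5 parts2 Pool.Agent.N849.PQ.int lb Pool.Agent.N615.PV.fam2 bad
    Pool.Agent.N954.PQ.tch Pool.Agent.N40.PQ.gen Pool.Agent.N40.PQ.spl Pool.Agent.N650.PM.gfr
    Pool.Agent.N273.PQ.finm Pool.Agent.N137.PV.tor Pool.Agent.N707.PQ.crv
  exact Pool.Agent.N607.PQ.cnt AllGood P X₀ c hc hP fun X hX Hh hHh => h X hX Hh hHh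

end Pool.Agent.H62.QM
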