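import Pool.Agent.H62.QM.Grp

/-!
# The primes modulo which an irreducible cubic polynomial has no zero
-/

set_option autoImplicit false
set_option linter.all false

open Polynomial NumberField Filter Topology

namespace Pool.Agent.H62.QM

open Pool.Agent.W401.Cheb

section frob

variable {N : Type} [Field N] [NumberField N] {A B : ℤ}

theorem coef_of {R : Type} [CommRing R] [IsDomain R] {s s' : R} {A B : R}
    (h : s ^ 3 + A * s + B = 0) (h' : s' ^ 3 + A * s' + B = 0) (hne : s' ≠ s) :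
    A = -(s ^ 2 + s * s' + s' ^ 2) ∧ B = s * s' * (s + s') := by
  have h1 : (s' - s) * (s ^ 2 + s * s' + s' ^ 2 + A) = 0 := by linear_combination h' - h
  have h2 : s ^ 2 + s * s' + s' ^ 2 + A = 0 :=
    (mul_eq_zero.1 h1).resolve_left (sub_ne_zero.2 hne)
  refine ⟨by linear_combination h2, by linear_combination h - s * h2⟩

theorem no_root_of_frob {g : N ≃ₐ[ℚ] N}
    (hg : ∀ s : 𝓞 N, s ^ 3 + (A : 𝓞 N) * s + (B : 𝓞 N) = 0 → g • s ≠ s) {s₀ : 𝓞 N}
    (hs₀ : s₀ ^ 3 + (A : 𝓞 N) * s₀ + (B : 𝓞 N) = 0) {p : ℕ} [Fact p.Prime]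
    (hΔ : ¬ (p : ℤ) ∣ 4 * A ^ 3 + 27 * B ^ 2) {k : Type} [Field k] [CharP k p] (φ : 𝓞 N →+* k)
    (hφ : ∀ x : 𝓞 N, φ (g • x) = φ x ^ p) (z : ℤ) : ¬ (p : ℤ) ∣ z ^ 3 + A * z + B := by
  intro hz
  have hroot : ∀ s : 𝓞 N, s ^ 3 + (A : 𝓞 N) * s + (B : 𝓞 N) = 0 →
      (g • s) ^ 3 + (A : 𝓞 N) * (g • s) + (B : 𝓞 N) = 0 := by
    intro s hs
    have h1 := congrArg (MulSemiringAction.toRingHom (N ≃ₐ[ℚ] N) (𝓞 N) g) hs
    rw [map_add, map_add, map_mul, map_pow, map_intCast, map_intCast, map_zero] at h1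
    exact h1
  have hfr : ((z : k)) ^ p = (z : k) := by
    have := map_intCast (frobenius k p) z
    rwa [frobenius_def] at this
  have key : ∀ s : 𝓞 N, s ^ 3 + (A : 𝓞 N) * s + (B : 𝓞 N) = 0 → φ s = (z : k) → False := by
    intro s hs hsz
    have h1 : φ (g • s) = φ s := by rw [hφ, hsz, hfr]
    obtain ⟨e1, e2⟩ := coef_of hs (hroot s hs) (hg s hs)
    have h2 : ((4 * A ^ 3 + 27 * B ^ 2 : ℤ) : 𝓞 N) = (g • s - s) *
        (-(g • s - s) * (2 * s + g • s) ^ 2 * (s + 2 * (g • s)) ^ 2) := by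
      push_cast
      rw [e1, e2]
      ring
    have h3 : ((4 * A ^ 3 + 27 * B ^ 2 : ℤ) : k) = 0 := by
      rw [← map_intCast φ, h2, map_mul, map_sub, h1, sub_self, zero_mul]
    exact hΔ ((CharP.intCast_eq_zero_iff k p _).1 h3)
  obtain ⟨e1, e2⟩ := coef_of hs₀ (hroot s₀ hs₀) (hg s₀ hs₀)
  have hz' : ((z ^ 3 + A * z + B : ℤ) : k) = 0 := (CharP.intCast_eq_zero_iff k p _).2 hz
  have h4 : ((z ^ 3 + A * z + B : ℤ) : 𝓞 N) = ((z : 𝓞 N) - s₀) * ((z : 𝓞 N) - g • s₀) *
      ((z : 𝓞 N) - (- s₀ - g • s₀)) := by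
    push_cast
    rw [e1, e2]
    ring
  rw [← map_intCast φ, h4, map_mul, map_mul, map_sub, map_sub, map_sub, map_intCast] at hz'
  rcases mul_eq_zero.1 hz' with h5 | h5
  · rcases mul_eq_zero.1 h5 with h6 | h6
    · exact key s₀ hs₀ (sub_eq_zero.1 h6).symm
    · exact key (g • s₀) (hroot s₀ hs₀) (sub_eq_zero.1 h6).symm
  · refine key (- s₀ - g • s₀) ?_ (sub_eq_zero.1 h5).symm
    rw [e1, e2]
    ring

end frob

/-- `X ^ 3 + A X + B` has no zero modulo `ℓ`. -/
def Inert (A B : ℤ) (ℓ : ℕ) : Prop := ∀ z : ℤ, ¬ (ℓ : ℤ) ∣ z ^ 3 + A * z + B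

/-- The set of these primes has lower density at least `1 / 3`. -/
theorem dens {A B : ℤ} (h : ∀ z : ℚ, z ^ 3 + (A : ℚ) * z + (B : ℚ) ≠ 0) {ε : ℝ} (hε : 0 < ε) :
    ∀ᶠ x : ℕ in atTop, (1 / 3 - ε) * (Nat.primeCounting x : ℝ) ≤
      (Nat.card {ℓ : ℕ // ℓ ≤ x ∧ ℓ.Prime ∧ Inert A B ℓ} : ℝ) := by
  classical
  set f : ℚ[X] := X ^ 3 + C (A : ℚ) * X + C (B : ℚ) with hf
  have hm : f.Monic := by rw [hf]; monicity!
  have hd : f.natDegree = 3 := by rw [hf]; compute_degree!
  have hirr : Irreducible f := by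
    rw [Monic.irreducible_iff_roots_eq_zero_of_degree_le_three hm (by omega) (by omega)]
    rw [Multiset.eq_zero_iff_forall_notMem]
    intro t ht
    have ht' := (mem_roots hm.ne_zero).1 ht
    apply h t
    rw [IsRoot.def, hf] at ht'
    simpa using ht'
  obtain ⟨N, iF, iN, iG, hcard, ⟨s, hs⟩, g, hg3, hg⟩ := exists_split hirr hd
  have haev : ∀ s : N, aeval s f = s ^ 3 + (A : N) * s + (B : N) := by
    intro s
    rw [hf]
    simp
  -- the discriminant is not zero
  have hΔ : 4 * A ^ 3 + 27 * B ^ 2 ≠ 0 := by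
    intro h0
    have h1 := (hirr.separable).aeval_derivative_ne_zero hs
    have h2 := haev s
    rw [hs] at h2
    have h3 : aeval s (derivative f) = 3 * s ^ 2 + (A : N) := by
      rw [hf]
      simp
      norm_num
    rw [h3] at h1
    have h0' : 4 * (A : N) ^ 3 + 27 * (B : N) ^ 2 = 0 := by exact_mod_cast congrArg (Int.cast : ℤ → N) h0
    -- `B = - s ^ 3 - A s`
    have h4 : (B : N) = - s ^ 3 - (A : N) * s := by linear_combination - h2
    rw [h4] at h0'
    have h5 : (3 * s ^ 2 + (A : N)) ^ 2 * (3 * s ^ 2 + 4 * (A : N)) = 0 := by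
      linear_combination h0'
    have h6 : 3 * s ^ 2 + 4 * (A : N) = 0 := (mul_eq_zero.1 h5).resolve_left (pow_ne_zero 2 h1)
    -- then `s` is rational
    by_cases hA : A = 0
    · rw [hA, Int.cast_zero, mul_zero, add_zero] at h6
      have h7 : s = 0 := by
        rcases mul_eq_zero.1 h6 with h7 | h7
        · norm_num at h7
        · exact pow_eq_zero_iff two_ne_zero |>.1 h7
      rw [h7, hA] at h1
      apply h1
      simp
    · have hA' : (A : N) ≠ 0 := by exact_mod_cast hA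
      have h8 : s * (A : N) = 3 * (B : N) := by
        rw [h4]
        linear_combination s * h6
      apply h (3 * (B : ℚ) / A)
      have hA'' : (A : ℚ) ≠ 0 := by exact_mod_cast hA
      have h9 : 4 * (A : ℚ) ^ 3 + 27 * (B : ℚ) ^ 2 = 0 := by
        exact_mod_cast congrArg (Int.cast : ℤ → ℚ) h0
      field_simp
      linear_combination (B : ℚ) * h9
  -- the integer `s`
  have hsr : s ^ 3 + (A : N) * s + (B : N) = 0 := by rw [← haev, hs]
  have hint : IsIntegral ℤ s := by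
    refine ⟨X ^ 3 + C A * X + C B, by monicity!, ?_⟩
    simp only [eval₂_add, eval₂_mul, eval₂_pow, eval₂_X, eval₂_C]
    simpa using hsr
  obtain ⟨s₀, hs₀'⟩ : ∃ s₀ : 𝓞 N, (s₀ : N) = s := ⟨⟨s, hint⟩, rfl⟩
  have hs₀ : s₀ ^ 3 + (A : 𝓞 N) * s₀ + (B : 𝓞 N) = 0 := by
    apply RingOfIntegers.ext
    rw [← hs₀'] at hsr
    exact hsr
  have hfix : ∀ g' : N ≃ₐ[ℚ] N, (∀ s : N, aeval s f = 0 → g' s ≠ s) →
      ∀ s : 𝓞 N, s ^ 3 + (A : 𝓞 N) * s + (B : 𝓞 N) = 0 → g' • s ≠ s := by
    intro g' hg' s hs h1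
    apply hg' (s : N)
    · rw [haev]
      exact congrArg (algebraMap (𝓞 N) N) hs
    · exact congrArg (algebraMap (𝓞 N) N) h1
  have hginv : ∀ s : N, aeval s f = 0 → g⁻¹ s ≠ s := by
    intro s hs h1
    apply hg s hs
    have h2 := congrArg g h1
    rw [← AlgEquiv.mul_apply, mul_inv_cancel] at h2
    exact h2.symm
  have hne : g ≠ g⁻¹ := by
    intro h1
    have h2 : g ^ 2 = 1 := by
      rw [pow_two]
      nth_rw 2 [h1]
      exact mul_inv_cancel g
    have h3 := orderOf_dvd_of_pow_eq_one h2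
    rw [hg3] at h3
    norm_num at h3
  -- Chebotarev
  obtain ⟨D, hD, hT⟩ := torsor N
  set Δ : ℕ := (4 * A ^ 3 + 27 * B ^ 2).natAbs with hΔd
  have hΔ0 : 0 < Δ := Int.natAbs_pos.2 hΔ
  have h1 := chebotarev N g
  have h2 := chebotarev N g⁻¹
  have h3 : Tendsto (M fun p => ((xp N g p : ℝ) + (xp N g⁻¹ p : ℝ))) atTop (𝓝 2) := by
    have := Tendsto.add h1 h2
    norm_num at this
    refine this.congr fun x => ?_
    rw [M_add]
    rfl
  let a : ℕ → ℝ := fun p => if ¬ p ∣ D * Δ then ((xp N g p : ℝ) + (xp N g⁻¹ p : ℝ)) else 0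
  have h4 : Tendsto (M a) atTop (𝓝 2) :=
    M_congr (D := D * Δ) (Nat.mul_pos hD hΔ0) (fun p hp hpd => if_pos hpd) h3
  let b : ℕ → ℝ := fun p => if Inert A B p then 1 else 0
  have hab : ∀ p, p.Prime → a p ≤ 6 * b p := by
    intro p hp
    by_cases hpd : ¬ p ∣ D * Δ
    · haveI : Fact p.Prime := ⟨hp⟩
      have hpD : ¬ p ∣ D := fun h => hpd (h.mul_right _)
      have hpΔ : ¬ (p : ℤ) ∣ 4 * A ^ 3 + 27 * B ^ 2 := by
        intro h
        apply hpd
        have h5 : p ∣ Δ := by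
          rw [hΔd]
          exact Int.natCast_dvd.1 h
        exact h5.mul_left _
      have hTp := hT p hpD
      simp only [a, b]
      rw [if_pos hpd]
      by_cases hI : Inert A B p
      · rw [if_pos hI, mul_one]
        haveI := finite_hom hTp
        have e1 : xp N g p = Nat.card {φ : 𝓞 N →+* AlgebraicClosure (ZMod p) // HasFrob p φ g} := by
          unfold xp
          rw [dif_pos hp]
        have e2 : xp N g⁻¹ p =
            Nat.card {φ : 𝓞 N →+* AlgebraicClosure (ZMod p) // HasFrob p φ g⁻¹} := by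
          unfold xp
          rw [dif_pos hp]
        have h6 : xp N g p + xp N g⁻¹ p ≤ 6 := by
          rw [e1, e2, ← Nat.card_sum]
          refine le_trans (Nat.card_le_card_of_injective (β := 𝓞 N →+* AlgebraicClosure (ZMod p))
            (fun q => Sum.elim (fun φ => φ.1) (fun φ => φ.1) q) ?_) (by rw [hTp.1]; exact hcard)
          rintro (⟨φ, hφ⟩ | ⟨φ, hφ⟩) (⟨ψ, hψ⟩ | ⟨ψ, hψ⟩) h7
          · simp only [Sum.elim_inl] at h7
            subst h7
            rfl
          · simp only [Sum.elim_inl, Sum.elim_inr] at h7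
            subst h7
            exact absurd (frob_unique hTp hφ hψ) hne
          · simp only [Sum.elim_inl, Sum.elim_inr] at h7
            subst h7
            exact absurd (frob_unique hTp hφ hψ).symm hne
          · simp only [Sum.elim_inr] at h7
            subst h7
            rfl
        exact_mod_cast h6
      · rw [if_neg hI, mul_zero]
        have hz : ∀ g' : N ≃ₐ[ℚ] N, (∀ s : N, aeval s f = 0 → g' s ≠ s) → xp N g' p = 0 := by
          intro g' hg'
          unfold xp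
          rw [dif_pos hp]
          have hemp : IsEmpty {φ : 𝓞 N →+* AlgebraicClosure (ZMod p) // HasFrob p φ g'} := by
            constructor
            rintro ⟨φ, hφ⟩
            exact hI fun z => no_root_of_frob (hfix g' hg') hs₀ hpΔ φ hφ z
          exact Nat.card_of_isEmpty
        rw [hz g hg, hz g⁻¹ hginv]
        norm_num
    · simp only [a, b]
      rw [if_neg hpd]
      split_ifs <;> norm_num
  have h5 : ∀ᶠ x in atTop, 2 - 6 * ε < M a x := h4.eventually (lt_mem_nhds (by linarith))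
  filter_upwards [h5, eventually_ge_atTop 2] with x hx hx2
  have h6 := M_mono hab x
  rw [M_smul] at h6
  have hpos : (0 : ℝ) < Nat.primeCounting x := by
    have : Nat.primeCounting x ≠ 0 := by
      rw [Ne, Nat.primeCounting_eq_zero_iff]
      omega
    exact_mod_cast Nat.pos_of_ne_zero this
  have h7 : M b x = (Nat.card {ℓ : ℕ // ℓ ≤ x ∧ ℓ.Prime ∧ Inert A B ℓ} : ℝ) /
      Nat.primeCounting x := by
    unfold M
    congr 1
    simp only [b]
    rw [Finset.sum_boole, Nat.subtype_card ((pr x).filter fun p => Inert A B p)]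
    intro p
    rw [Finset.mem_filter, mem_pr, and_assoc]
  have h8 : 1 / 3 - ε ≤ M b x := by linarith
  rw [h7, le_div_iff₀ hpos] at h8
  exact h8

end Pool.Agent.H62.QM
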