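import Pool.Graph.R_pool_sql_team_seeded_63374d34.N667.PQ.P3

/-!
# The parity at the prime of degree one over `Q`
-/

set_option autoImplicit false
set_option linter.all false

open Polynomial IsDedekindDomain WithZero UniqueFactorizationMonoid
open scoped Classical

namespace Pool.Agent.H62.QM

open Pool.Agent.N922.PQ
open Pool.Agent.N874.PP (Ev Sq1 U0)
open Pool.Agent.N862.PP (cn)
open Pool.Agent.N667.PQ

/-- An element of square norm has even valuation at the prime of degree one over `Q`. -/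
theorem ev_one (hI : S_INT) {L O : Type} [Field L] [NumberField L] [CommRing O]
    [IsDedekindDomain O] [Algebra O L] [IsFractionRing O L] [IsIntegralClosure O ℤ L]
    {a b : ℤ} {θ : L} (h : IsCub a b θ) (hsq : Squarefree (dsc a b)) {Q : ℤ} (hQ : Prime Q)
    (hQb : Q ∣ b) (hns : ∀ z : ℤ, ¬ Q ∣ z ^ 2 + a) {x : L} (hx : x ≠ 0)
    (hnx : IsSquare (Algebra.norm ℚ x)) {𝔓 : HeightOneSpectrum O} (hov : Ov Q 𝔓)
    (hlt : 𝔓.valuation L θ < 1) : Ev 𝔓 x := by
  obtain ⟨t, ht, htr⟩ := exists_theta (O := O) h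
  have hfin : Module.Finite ℤ O := fin_O (L := L) hI h hsq
  have htf : Module.IsTorsionFree ℤ O := tf_O (L := L)
  have ht1 : t ∈ 𝔓.asIdeal := by
    rw [← ht] at hlt
    exact (𝔓.valuation_lt_one_iff_mem (K := L) _).1 hlt
  have h1 : cn ℤ (Ideal.span {Q}) 𝔓.asIdeal = 1 :=
    cn_deg_one h hsq hQ hov ht (c := 0) (by rw [map_zero, sub_zero]; exact ht1)
  have hJ1 : 𝔓.asIdeal = J1 Q t := by
    rcases eq_J hI h hsq hQ hQb hns ht htr hov with h2 | h2
    · exact h2.2
    · exact absurd ht1 h2.1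
  have hQ0 : algebraMap ℤ O Q ≠ 0 := by
    intro h0
    exact hQ.ne_zero (algO_inj (L := L) (by rw [h0, map_zero]))
  have hprod := J1_mul_J2_eq hI h hsq hQ hQb hns ht htr
  have hne : (J1 Q t * J2 Q a t : Ideal O) ≠ ⊥ := by
    rw [hprod, Ne, Ideal.span_singleton_eq_bot]
    exact hQ0
  have hne1 : (J1 Q t : Ideal O) ≠ ⊥ := by
    rintro h0
    rw [h0, Ideal.bot_mul] at hne
    exact hne rfl
  have hne2 : (J2 Q a t : Ideal O) ≠ ⊥ := by
    rintro h0
    rw [h0, Ideal.mul_bot] at hne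
    exact hne rfl
  have h3 := cn_three (L := L) (O := O) h hQ
  rw [← hprod] at h3
  have h4 : cn ℤ (Ideal.span {Q}) (J1 Q t * J2 Q a t : Ideal O) =
      cn ℤ (Ideal.span {Q}) (J1 Q t : Ideal O) + cn ℤ (Ideal.span {Q}) (J2 Q a t : Ideal O) := by
    unfold cn
    rw [map_mul, normalizedFactors_mul, Multiset.count_add]
    · exact fun h0 => hne1 (Ideal.relNorm_eq_bot_iff.1 h0)
    · exact fun h0 => hne2 (Ideal.relNorm_eq_bot_iff.1 h0)
  rw [hJ1] at h1
  have h5 : cn ℤ (Ideal.span {Q}) (J2 Q a t : Ideal O) = 2 := by omega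
  refine parity h hQ 𝔓 hov ?_ hx hnx fun 𝔮 ho hne' => ?_
  · rw [hJ1, h1]
    decide
  · right
    rcases eq_J hI h hsq hQ hQb hns ht htr ho with h6 | h6
    · exact absurd (HeightOneSpectrum.ext (h6.2.trans hJ1.symm)) hne'
    · rw [h6.2, h5]
      decide

end Pool.Agent.H62.QM
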