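import Pool.Graph.R_pool_sql_team_seeded_63374d34.N849.PM.Loc2

/-!
# Local analysis at the primes dividing `D`, over a field in which `- a` may be a square

Adapted from `N849/PM/Loc2.lean` of the library (helper849 after helper704).
-/

set_option autoImplicit false
set_option linter.all false

open Polynomial IsDedekindDomain WithZero
open Pool.Agent.N874.PP Pool.Agent.N874.PM
open scoped Classical

namespace Pool.Agent.H62.QM

open Pool.Agent.N704.PP (vx near_one near sq1_of ev_of ev_of_sq1 mlt mlt' sq_or exp_odd)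
open Pool.Agent.N849.PM (ploc_cases Lies.eq_one u0_of_sq1 u0_of_sq1')

section helper

variable {Ω O : Type} [Field Ω] [CommRing O] [IsDedekindDomain O]
  [Algebra O Ω] [IsFractionRing O Ω]

theorem v_one_of {F : Type} [Field F] {v : Valuation F (WithZero (Multiplicative ℤ))} {r : F}
    (h : v (r - 1) < 1) : v r = 1 := by
  have e : r = 1 + (r - 1) := by ring
  rw [e, Valuation.map_add_eq_of_lt_left _ (by rw [map_one]; exact h), map_one]

theorem sq1_helper (𝔓 : HeightOneSpectrum O) {β : Ω} (hβ : β ≠ 0)
    {r r' c g s : 𝔓.adicCompletion Ω}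
    (h : algebraMap Ω (𝔓.adicCompletion Ω) β * r = c * g ^ 2 * r') (hr : Valued.v (r - 1) < 1)
    (hr' : Valued.v (r' - 1) < 1) (hc : Valued.v c = 1) (hs : Valued.v (s ^ 2 - c) < 1) :
    Sq1 𝔓 β := by
  have vr := v_one_of hr
  have vr' := v_one_of hr'
  have hβE : algebraMap Ω (𝔓.adicCompletion Ω) β ≠ 0 := by rw [Ne, map_eq_zero]; exact hβ
  have vβ : 0 < Valued.v (algebraMap Ω (𝔓.adicCompletion Ω) β) :=
    zero_lt_iff.2 ((Valuation.ne_zero_iff _).2 hβE)
  have vg : Valued.v (g ^ 2) = Valued.v (algebraMap Ω (𝔓.adicCompletion Ω) β) := by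
    have := congrArg (Valued.v : 𝔓.adicCompletion Ω → WithZero (Multiplicative ℤ)) h
    rw [map_mul, vr, mul_one, map_mul, map_mul, vr', mul_one, hc, one_mul] at this
    exact this.symm
  refine sq1_of 𝔓 β (s * g) ?_
  have e : algebraMap Ω (𝔓.adicCompletion Ω) β - (s * g) ^ 2 =
      - (algebraMap Ω (𝔓.adicCompletion Ω) β * (r - 1)) + c * g ^ 2 * (r' - 1) -
        (s ^ 2 - c) * g ^ 2 := by
    linear_combination h
  rw [e]
  refine lt_of_le_of_lt (Valuation.map_sub _ _ _) (max_lt (lt_of_le_of_lt (Valuation.map_add _ _ _)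
    (max_lt ?_ ?_)) ?_)
  · rw [Valuation.map_neg, map_mul]
    calc _ < Valued.v (algebraMap Ω (𝔓.adicCompletion Ω) β) * 1 := mul_lt_mul_of_pos_left hr vβ
      _ = _ := mul_one _
  · rw [map_mul, map_mul, hc, one_mul, vg]
    calc _ < Valued.v (algebraMap Ω (𝔓.adicCompletion Ω) β) * 1 := mul_lt_mul_of_pos_left hr' vβ
      _ = _ := mul_one _
  · rw [map_mul, vg]
    calc _ < 1 * Valued.v (algebraMap Ω (𝔓.adicCompletion Ω) β) := mul_lt_mul_of_pos_right hs vβ
      _ = _ := one_mul _

end helper

theorem loc2n (M Ω R O : Type) [Field M] [Field Ω] [Algebra M Ω] [CommRing R]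
    [IsDedekindDomain R] [Algebra R M] [IsFractionRing R M] [CommRing O] [IsDedekindDomain O]
    [Algebra O Ω] [IsFractionRing O Ω] (w : HeightOneSpectrum R) (𝔓 : HeightOneSpectrum O)
    (hL : Lies (M := M) (Ω := Ω) w 𝔓) (a b ϖ D' : M) (θ : Ω) (h : M[X])
    (hroot : θ ^ 3 + algebraMap M Ω a * θ + algebraMap M Ω b = 0) (h2 : w.valuation M 2 = 1)
    (ha : w.valuation M a ≤ 1) (hb : w.valuation M b < 1)
    (hϖ : w.valuation M ϖ = WithZero.exp (-1 : ℤ)) (hD : w.valuation M D' = 1)
    (hl : PLoc (w.adicCompletion M) (a * (ϖ * D') ^ 2) (b * (ϖ * D') ^ 3) h)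
    (hne : aeval (algebraMap M Ω (ϖ * D') * θ) h ≠ 0)
    (hs1 : ∃ s : Ω, 𝔓.valuation Ω (s ^ 2 - algebraMap M Ω (-D')) < 1)
    (hs2 : ∃ s : Ω, 𝔓.valuation Ω (s ^ 2 - algebraMap M Ω (-2 * D')) < 1)
    (hs3 : ∃ s : Ω, 𝔓.valuation Ω (s ^ 2 - algebraMap M Ω 2) < 1)
    (hθ1 : 𝔓.valuation Ω θ = 1) (hodd : ¬ Ev 𝔓 (algebraMap M Ω ϖ * θ)) :
    U0 𝔓 (algebraMap M Ω ϖ * θ) (aeval (algebraMap M Ω (ϖ * D') * θ) h) := by
  obtain ⟨j, hj1, hj2, hj3⟩ := Pool.Agent.TH115.GD.exists_compl_map w 𝔓 (algebraMap M Ω) hL.le hL.lt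
  have hΘ : (algebraMap M Ω (ϖ * D') * θ) ^ 3 + algebraMap M Ω (a * (ϖ * D') ^ 2) *
      (algebraMap M Ω (ϖ * D') * θ) + algebraMap M Ω (b * (ϖ * D') ^ 3) = 0 := by
    simp only [map_mul, map_pow]
    linear_combination (algebraMap M Ω ϖ * algebraMap M Ω D') ^ 3 * hroot
  set Θ : Ω := algebraMap M Ω (ϖ * D') * θ with hΘd
  set α : Ω := aeval Θ h with hα
  have hϖ0 : ϖ ≠ 0 := by
    rintro rfl
    rw [map_zero] at hϖ
    exact exp_ne_zero hϖ.symm
  have hD0 : D' ≠ 0 := by
    rintro rfl
    rw [map_zero] at hD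
    exact zero_ne_one hD
  have h20 : (2 : M) ≠ 0 := by
    intro h0
    rw [h0, map_zero] at h2
    exact zero_ne_one h2
  have hQE : algebraMap M (w.adicCompletion M) ϖ ≠ 0 := by rw [Ne, map_eq_zero]; exact hϖ0
  have hDE : algebraMap M (w.adicCompletion M) D' ≠ 0 := by rw [Ne, map_eq_zero]; exact hD0
  have hαE : algebraMap Ω (𝔓.adicCompletion Ω) α ≠ 0 := by rw [Ne, map_eq_zero]; exact hne
  -- it suffices to prove
  suffices hmain : Sq1 𝔓 α ∨ Sq1 𝔓 (α * (algebraMap M Ω ϖ * θ)) by
    rcases hmain with h3 | h3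
    · exact u0_of_sq1 h3
    · exact u0_of_sq1' hne hodd h3
  rcases ploc_cases j hj1 hΘ hl with ⟨g, hg⟩ | ⟨x, y, hy0, hxy, g, hg⟩
  · left
    refine sq1_of 𝔓 α g ?_
    rw [← hα] at hg
    rw [← hg, sub_self, map_zero]
    exact zero_lt_iff.2 ((Valuation.ne_zero_iff _).2 hαE)
  · rw [← hα] at hg
    set q := algebraMap M (w.adicCompletion M) ϖ with hq
    set d := algebraMap M (w.adicCompletion M) D' with hd
    set a' := algebraMap M (w.adicCompletion M) a with ha'
    set b' := algebraMap M (w.adicCompletion M) b with hb'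
    have hxy' : y ^ 2 = x ^ 3 + a' * (q * d) ^ 2 * x + b' * (q * d) ^ 3 := by
      rw [hxy]
      simp only [map_mul, map_pow, hq, hd, ha', hb']
    have va' : Valued.v a' ≤ 1 := by rw [ha', vx]; exact ha
    have vb' : Valued.v b' < 1 := by rw [hb', vx]; exact hb
    have vd : Valued.v d = 1 := by rw [hd, vx, hD]
    have vq : Valued.v q = exp (-1 : ℤ) := by rw [hq, vx, hϖ]
    have jq : j q = algebraMap Ω (𝔓.adicCompletion Ω) (algebraMap M Ω ϖ) := by rw [hq, hj1]
    have jd : j d = algebraMap Ω (𝔓.adicCompletion Ω) (algebraMap M Ω D') := by rw [hd, hj1]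
    have ja : j a' = algebraMap Ω (𝔓.adicCompletion Ω) (algebraMap M Ω a) := by rw [ha', hj1]
    have jb : j b' = algebraMap Ω (𝔓.adicCompletion Ω) (algebraMap M Ω b) := by rw [hb', hj1]
    set t := algebraMap Ω (𝔓.adicCompletion Ω) θ with ht
    have vt : Valued.v t = 1 := by rw [ht, vx]; exact hθ1
    have ht0 : t ≠ 0 := by
      intro h
      rw [h, map_zero] at vt
      exact zero_ne_one vt
    have hΘE : algebraMap Ω (𝔓.adicCompletion Ω) Θ = j q * j d * t := by
      rw [hΘd, map_mul, map_mul, map_mul, jq, jd]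
    rw [hΘE] at hg
    have hjd0 : j d ≠ 0 := by rw [Ne, map_eq_zero]; exact hDE
    have hjq0 : j q ≠ 0 := by rw [Ne, map_eq_zero]; exact hQE
    have vjd : Valued.v (j d) = 1 := by rw [jd, vx]; exact Lies.eq_one hL hD
    have hjy0 : j y ≠ 0 := by rw [Ne, map_eq_zero]; exact hy0
    have v2 : Valued.v (2 : 𝔓.adicCompletion Ω) = 1 := by
      have e : (2 : 𝔓.adicCompletion Ω) = algebraMap Ω (𝔓.adicCompletion Ω) (algebraMap M Ω 2) := by
        rw [map_ofNat, map_ofNat]
      rw [e, vx]
      exact Lies.eq_one hL h2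
    have h2E : (2 : 𝔓.adicCompletion Ω) ≠ 0 := by
      intro h0
      rw [h0, map_zero] at v2
      exact zero_ne_one v2
    have vjb : Valued.v (j b') < 1 := by rw [jb, vx]; exact hL.lt b hb
    have ht3 : t ^ 3 + j a' * t + j b' = 0 := by
      rw [ja, jb, ht, ← map_pow, ← map_mul, ← map_add, ← map_add, hroot, map_zero]
    have vta : Valued.v (t ^ 2 + j a') < 1 := by
      have e : (t ^ 2 + j a') * t = - j b' := by linear_combination ht3
      have h3 := congrArg (Valued.v : 𝔓.adicCompletion Ω → WithZero (Multiplicative ℤ)) e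
      rw [map_mul, vt, mul_one, Valuation.map_neg] at h3
      rw [h3]
      exact vjb
    -- the constants as squares
    have hβ0 : α * (algebraMap M Ω ϖ * θ) ≠ 0 := by
      refine mul_ne_zero hne (mul_ne_zero ?_ ?_)
      · rw [Ne, map_eq_zero]; exact hϖ0
      · rintro rfl
        rw [map_zero] at hθ1
        exact zero_ne_one hθ1
    have hβ' : algebraMap Ω (𝔓.adicCompletion Ω) (α * (algebraMap M Ω ϖ * θ)) =
        algebraMap Ω (𝔓.adicCompletion Ω) α * (j q * t) := by
      rw [map_mul, map_mul, jq]
    by_cases hx : Valued.v x ≤ Valued.v q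
    · -- `x = ϖ D' x'`
      set x' := x / (q * d) with hx'
      have ex : x = q * d * x' := by
        rw [hx']; field_simp
      have vx' : Valued.v x' ≤ 1 := by
        rw [hx', map_div₀, map_mul, vd, mul_one]
        exact (div_le_one₀ (zero_lt_iff.2 ((Valuation.ne_zero_iff _).2 hQE))).2 hx
      have hyx : y ^ 2 = (q * d) ^ 3 * (x' ^ 3 + a' * x' + b') := by
        rw [hxy', ex]; ring
      have hg' : (j q * j d * j x' - j q * j d * t) * algebraMap Ω (𝔓.adicCompletion Ω) α =
          g ^ 2 := by
        rw [← hg, ex, map_mul, map_mul]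
      by_cases vx1 : Valued.v x' < 1
      · right
        have jx1 : Valued.v (j x') < 1 := hj3 _ vx1
        obtain ⟨s, hs⟩ := hs1
        refine sq1_helper 𝔓 hβ0 (r := 1 - j x' / t) (r' := 1) (c := -(j d)) (g := g / j d)
          (s := algebraMap Ω (𝔓.adicCompletion Ω) s) ?_ ?_ ?_ ?_ ?_
        · rw [hβ', div_pow, ← hg']
          field_simp
          ring
        · have e : 1 - j x' / t - 1 = - (j x' / t) := by ring
          rw [e, Valuation.map_neg, map_div₀, vt, div_one]
          exact jx1
        · rw [sub_self, map_zero]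
          exact zero_lt_one
        · rw [Valuation.map_neg, vjd]
        · rw [← vx, map_sub, map_pow, map_neg, map_neg, ← jd] at hs
          exact hs
      · have vx1' : Valued.v x' = 1 := le_antisymm vx' (not_lt.1 vx1)
        -- `x' ^ 2 = - a`
        have h3 : Valued.v (x' ^ 2 + a') < 1 := by
          by_contra hcon
          have h2' : Valued.v (x' ^ 2 + a') ≤ 1 := by
            refine (Valuation.map_add _ _ _).trans (max_le ?_ va')
            rw [map_pow]; exact pow_le_one' vx' 2
          have h2'' : Valued.v (x' ^ 2 + a') = 1 := le_antisymm h2' (not_lt.1 hcon)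
          have h4 : Valued.v (x' ^ 3 + a' * x' + b') = 1 := by
            have e : x' ^ 3 + a' * x' + b' = x' * (x' ^ 2 + a') + b' := by ring
            have h5 : Valued.v (x' * (x' ^ 2 + a')) = 1 := by rw [map_mul, vx1', h2'', mul_one]
            rw [e, Valuation.map_add_eq_of_lt_left _ (by rw [h5]; exact vb'), h5]
          have h5 := congrArg (Valued.v : w.adicCompletion M → WithZero (Multiplicative ℤ)) hyx
          rw [map_pow, map_mul, h4, mul_one, map_pow, map_mul, vd, mul_one, vq, ← exp_nsmul] at h5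
          refine exp_odd (x := 1) (y := Valued.v y) (n := 3 • (-1 : ℤ)) ⟨-2, by norm_num⟩
            one_ne_zero ?_
          rw [one_pow, one_mul]
          exact h5.symm
        have h4 : Valued.v (j x' ^ 2 + j a') < 1 := by
          rw [← map_pow, ← map_add]
          exact hj3 _ h3
        have vjx : Valued.v (j x') ≤ 1 := hj2 _ vx'
        have hprod : Valued.v ((j x' - t) * (j x' + t)) < 1 := by
          have e : (j x' - t) * (j x' + t) = (j x' ^ 2 + j a') - (t ^ 2 + j a') := by ring
          rw [e]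
          exact lt_of_le_of_lt (Valuation.map_sub _ _ _) (max_lt h4 vta)
        by_cases hB : Valued.v (j x' + t) < 1
        · right
          obtain ⟨s, hs⟩ := hs2
          refine sq1_helper 𝔓 hβ0 (r := 1 - (j x' + t) / (2 * t)) (r' := 1) (c := -2 * j d)
            (g := g / (2 * j d)) (s := algebraMap Ω (𝔓.adicCompletion Ω) s) ?_ ?_ ?_ ?_ ?_
          · rw [hβ', div_pow, ← hg']
            field_simp
            ring
          · have e : 1 - (j x' + t) / (2 * t) - 1 = - ((j x' + t) / (2 * t)) := by ring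
            rw [e, Valuation.map_neg, map_div₀, map_mul, v2, vt, one_mul, div_one]
            exact hB
          · rw [sub_self, map_zero]
            exact zero_lt_one
          · rw [neg_mul, Valuation.map_neg, map_mul, v2, vjd, one_mul]
          · rw [← vx, map_sub, map_pow, map_mul, map_mul, ← jd, map_neg, map_neg, map_ofNat,
              map_ofNat] at hs
            exact hs
        · left
          have hB' : Valued.v (j x' - t) < 1 := by
            by_contra hcon
            rw [map_mul] at hprod
            have h5 : Valued.v (j x' + t) ≤ 1 := (Valuation.map_add _ _ _).trans (max_le vjx vt.le)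
            have h6 : Valued.v (j x' + t) = 1 := le_antisymm h5 (not_lt.1 hB)
            rw [h6, mul_one] at hprod
            exact hcon hprod
          obtain ⟨s, hs⟩ := hs3
          set η := ((j x' - t) * (j x' + 2 * t) + (t ^ 2 + j a')) / (2 * t ^ 2) with hη
          have vη : Valued.v η < 1 := by
            rw [hη, map_div₀, map_mul, v2, map_pow, vt, one_pow, one_mul, div_one]
            refine lt_of_le_of_lt (Valuation.map_add _ _ _) (max_lt ?_ vta)
            rw [map_mul]
            refine mlt' hB' ((Valuation.map_add _ _ _).trans (max_le vjx ?_))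
            rw [map_mul, v2, vt, one_mul]
          have hjyx : j y ^ 2 = (j q * j d) ^ 3 * ((j x' - t) * (2 * t ^ 2 * (1 + η))) := by
            rw [← map_pow, hyx]
            simp only [map_mul, map_pow, map_add]
            have e : 2 * t ^ 2 * (1 + η) = j x' ^ 2 + j x' * t + t ^ 2 + j a' := by
              rw [hη]
              field_simp
              ring
            rw [e]
            linear_combination (j q * j d) ^ 3 * ht3
          refine sq1_helper 𝔓 hne (r := 1) (r' := 1 + η) (c := 2)
            (g := g * (j q * j d) * t / j y) (s := algebraMap Ω (𝔓.adicCompletion Ω) s) ?_ ?_ ?_ ?_ ?_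
          · rw [div_pow, hjyx, mul_one]
            have h1η : 1 + η ≠ 0 := by
              intro h0
              have := v_one_of (v := (Valued.v : Valuation (𝔓.adicCompletion Ω) _)) (r := 1 + η)
                (by rw [add_sub_cancel_left]; exact vη)
              rw [h0, map_zero] at this
              exact zero_ne_one this
            have hxt : j x' - t ≠ 0 := by
              intro h0
              rw [h0] at hjyx
              rw [zero_mul, mul_zero] at hjyx
              exact hjy0 (pow_eq_zero_iff two_ne_zero |>.1 hjyx)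
            have e : g ^ 2 = j q * j d * (j x' - t) * algebraMap Ω (𝔓.adicCompletion Ω) α := by
              rw [← hg']; ring
            rw [mul_pow, mul_pow, e]
            field_simp
          · rw [sub_self, map_zero]
            exact zero_lt_one
          · rw [add_sub_cancel_left]
            exact vη
          · exact v2
          · rw [← vx, map_sub, map_pow, map_ofNat, map_ofNat] at hs
            exact hs
    · left
      rw [not_le] at hx
      have hx0 : x ≠ 0 := by
        rintro rfl
        rw [map_zero] at hx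
        exact absurd hx (by simp)
      set ξ := q / x with hξ
      have vξ : Valued.v ξ < 1 := by
        rw [hξ, map_div₀]
        exact (div_lt_one₀ (zero_lt_iff.2 ((Valuation.ne_zero_iff _).2 hx0))).2 hx
      have eq : q = ξ * x := by rw [hξ]; field_simp
      set ε := a' * d ^ 2 * ξ ^ 2 + b' * d ^ 3 * ξ ^ 3 with hε
      have vε : Valued.v ε < 1 := by
        refine lt_of_le_of_lt (Valuation.map_add _ _ _) (max_lt ?_ ?_)
        · rw [map_mul, map_mul, map_pow, vd, one_pow, mul_one, map_pow]
          exact mlt va' (pow_lt_one₀ zero_le vξ two_ne_zero)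
        · rw [map_mul, map_mul, map_pow, vd, one_pow, mul_one, map_pow]
          exact mlt vb'.le (pow_lt_one₀ zero_le vξ three_ne_zero)
      have hy : y ^ 2 = x ^ 3 * (1 + ε) := by
        rw [hxy', hε, eq]; ring
      have hjx0 : j x ≠ 0 := by rw [Ne, map_eq_zero]; exact hx0
      have hjy : j y ^ 2 = j x ^ 3 * (1 + j ε) := by
        rw [← map_pow, hy, map_mul, map_pow, map_add, map_one]
      have vjε : Valued.v (j ε) < 1 := hj3 _ vε
      have vj1 : Valued.v (1 + j ε) = 1 := by
        rw [Valuation.map_add_eq_of_lt_left _ (by rw [map_one]; exact vjε), map_one]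
      have hj1ε : (1 + j ε) ≠ 0 := by
        intro h
        rw [h, map_zero] at vj1
        exact zero_ne_one vj1
      set ε' := - (j d * t * j ξ) with hε'
      have vε' : Valued.v ε' < 1 := by
        rw [hε', Valuation.map_neg, map_mul, map_mul, vt]
        refine mlt ?_ (hj3 _ vξ)
        exact mul_le_one' (hj2 _ vd.le) le_rfl
      have hg' : j x * (1 + ε') * algebraMap Ω (𝔓.adicCompletion Ω) α = g ^ 2 := by
        rw [← hg, hε', eq, map_mul]; ring
      refine sq1_of 𝔓 α (g * j x / j y) ?_
      have e : algebraMap Ω (𝔓.adicCompletion Ω) α - (g * j x / j y) ^ 2 =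
          algebraMap Ω (𝔓.adicCompletion Ω) α * ((j ε - ε') / (1 + j ε)) := by
        rw [div_pow, mul_pow, ← hg', hjy]
        field_simp
        ring
      rw [e, map_mul, map_div₀, vj1, div_one]
      calc _ < Valued.v (algebraMap Ω (𝔓.adicCompletion Ω) α) * 1 :=
            mul_lt_mul_of_pos_left (lt_of_le_of_lt (Valuation.map_sub _ _ _)
              (max_lt vjε vε')) (zero_lt_iff.2 ((Valuation.ne_zero_iff _).2 hαE))
        _ = _ := mul_one _

end Pool.Agent.H62.QM
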