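import Pool.Agent.H62.QM.Res
import Pool.Agent.H62.QM.Loc
import Pool.Agent.H62.QM.Ev1
import Pool.Graph.R_pool_sql_team_seeded_63374d34.N922.PQ.Big6

/-!
# Descent: the conditions over the extension

Adapted from `N922/PQ/Big.lean`, `Big3.lean`, `Big6.lean` of the library (helper922).
-/

set_option autoImplicit false
set_option linter.all false

open Polynomial IsDedekindDomain WeierstrassCurve WeierstrassCurve.Affine NumberField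
open Pool.Agent.TH115.GD
open scoped Classical IntermediateField

namespace Pool.Agent.H62.QM

open Pool.Agent.N874.PP (Tup chA chB gq tau Two Ev Sq1 U0 sW IsBeta Rt)
open Pool.Agent.N874.PM (PLoc Lies SelR ShaR)
open Pool.Agent.N922.PQ

/-- `X ^ 3 + a X + b` has no zero modulo `P`. -/
def NR (a b P : ℤ) : Prop := ∀ z : ℤ, ¬ P ∣ z ^ 3 + a * z + b

/-- Properties of the curve and of the set `J`. -/
structure Dat (a b : ℤ) (J : Finset ℤ) : Prop where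
  sq : Squarefree (dsc a b)
  n2 : NR a b 2
  n3 : NR a b 3
  h4 : (4 : ℤ) ∣ a - b
  j : ∀ Q ∈ J, IsPr Q ∧ Q % 8 = 1 ∧ Q ∣ b ∧ ∀ z : ℤ, ¬ Q ∣ z ^ 2 + a

/-- Properties of the field. -/
structure Fld (M : Type) [Field M] [NumberField M] (a b : ℤ) (J : Finset ℤ) : Prop where
  ram : ∀ P : ℤ, Prime P → P ∣ discr M → NR a b P
  two : ¬ (2 : ℤ) ∣ discr M
  res : ∀ Q ∈ J, ∀ w : HeightOneSpectrum (𝓞 M), Ov Q w → ∀ x : 𝓞 M,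
    x ^ (Q.natAbs ^ 2) - x ∈ w.asIdeal

/-- The conditions. -/
structure Cn {Ω : Type} [Field Ω] [NumberField Ω] (a b : ℤ) (J : Finset ℤ) (θ x : Ω) : Prop where
  ev : ∀ 𝔓 : HeightOneSpectrum (𝓞 Ω), (∀ P : ℤ, IsPr P → NR a b P → ¬ Ov P 𝔓) →
    (∀ Q ∈ J, ¬ Ov Q 𝔓) → Ev 𝔓 x
  u0 : ∀ Q ∈ J, ∀ 𝔓 : HeightOneSpectrum (𝓞 Ω), Ov Q 𝔓 → 𝔓.valuation Ω θ = 1 →
    U0 𝔓 ((Q : Ω) * θ) x

theorem Dat.nd2 {a b : ℤ} {J : Finset ℤ} (hD : Dat a b J) {Q : ℤ} (hQ : Q ∈ J) : ¬ Q ∣ 2 :=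
  not_dvd_two (hD.j Q hQ).2.1 (hD.j Q hQ).1.1 (hD.j Q hQ).1.2

/-- `X ^ 3 + a X + b` has a zero modulo the primes in `J`. -/
theorem Dat.not_nr {a b : ℤ} {J : Finset ℤ} (hD : Dat a b J) {Q : ℤ} (hQ : Q ∈ J) :
    ¬ NR a b Q := by
  intro h
  apply h 0
  have e : (0 : ℤ) ^ 3 + a * 0 + b = b := by ring
  rw [e]
  exact (hD.j Q hQ).2.2.1

section cond

variable {Ω : Type} [Field Ω] [NumberField Ω] {a b : ℤ} {J : Finset ℤ} {θ : Ω}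

theorem cn_sq {x : Ω} (hx : x ≠ 0) : Cn a b J θ (x ^ 2) where
  ev 𝔓 _ _ := ev_sq 𝔓 x
  u0 Q _ 𝔓 _ _ := by
    refine ⟨fun _ => ⟨x, ?_⟩, fun h => absurd (ev_sq 𝔓 x) h⟩
    rw [sub_self, map_zero, zero_lt_iff]
    exact (Valuation.ne_zero_iff _).2 (pow_ne_zero _ hx)

theorem cn_mul (hCLS : S_CLS) (hD : Dat a b J)
    (hϖ : ∀ Q ∈ J, ∀ 𝔓 : HeightOneSpectrum (𝓞 Ω), Ov Q 𝔓 → 𝔓.valuation Ω θ = 1 →
      ¬ Ev 𝔓 ((Q : Ω) * θ)) {x y : Ω} (hx : x ≠ 0) (hy : y ≠ 0)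
    (h : Cn a b J θ x) (h' : Cn a b J θ y) : Cn a b J θ (x * y) where
  ev 𝔓 h1 h2 := ev_mul (h.ev 𝔓 h1 h2) (h'.ev 𝔓 h1 h2)
  u0 Q hQ 𝔓 h1 h3 := by
    have h4 := hϖ Q hQ 𝔓 h1 h3
    have h5 : (Q : Ω) * θ ≠ 0 := by
      intro h0
      apply h4
      rw [h0]
      exact ⟨0, by simp⟩
    exact ((hCLS Ω (𝓞 Ω) Q 𝔓 _ (hD.j Q hQ).1.2 (hD.nd2 hQ) h1 h5 h4 x y hx hy).2).2
      ⟨fun _ => h'.u0 Q hQ 𝔓 h1 h3, fun _ => h.u0 Q hQ 𝔓 h1 h3⟩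

theorem cn_sig (hSIG : S_SIG) {L : Type} [Field L]
    [Algebra L Ω] {θ₀ : L} (hθ : θ = algebraMap L Ω θ₀)
    (σ : Ω ≃ₐ[L] Ω) {x : Ω} (h : Cn a b J θ x) : Cn a b J θ (σ x) := by
  have hf : ∀ y : L, σ (algebraMap L Ω y) = algebraMap L Ω y := fun y => σ.commutes y
  have hp : ∀ P : ℤ, σ (P : Ω) = (P : Ω) := fun P => map_intCast σ P
  have key := hSIG Ω (𝓞 Ω) (σ : Ω ≃+* Ω)
  have hev : ∀ (𝔓 𝔓' : HeightOneSpectrum (𝓞 Ω)),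
      (∀ y : Ω, 𝔓'.valuation Ω y = 𝔓.valuation Ω (σ y)) →
      ∀ y : Ω, Ev 𝔓' y ↔ Ev 𝔓 (σ y) := by
    intro 𝔓 𝔓' hv y
    constructor
    · rintro ⟨z, hz⟩
      exact ⟨σ z, by rw [← hv, ← hv, hz]⟩
    · rintro ⟨z, hz⟩
      refine ⟨σ.symm z, ?_⟩
      rw [hv, hv, σ.apply_symm_apply, hz]
  have hsq : ∀ (𝔓 𝔓' : HeightOneSpectrum (𝓞 Ω)),
      (∀ y : Ω, 𝔓'.valuation Ω y = 𝔓.valuation Ω (σ y)) →
      ∀ y : Ω, Sq1 𝔓' y → Sq1 𝔓 (σ y) := by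
    rintro 𝔓 𝔓' hv y ⟨z, hz⟩
    refine ⟨σ z, ?_⟩
    rw [hv, hv, map_sub, map_pow] at hz
    exact hz
  refine ⟨fun 𝔓 h1 h2 => ?_, fun Q hQ 𝔓 h1 h2 => ?_⟩
  · obtain ⟨𝔓', hv, hO⟩ := key 𝔓
    exact (hev 𝔓 𝔓' hv x).1 (h.ev 𝔓' (fun P hP hn hc => h1 P hP hn ((hO P).1 hc))
      (fun Q hQ hc => h2 Q hQ ((hO Q).1 hc)))
  · obtain ⟨𝔓', hv, hO⟩ := key 𝔓
    have hv' : ∀ y : Ω, 𝔓'.valuation Ω y = 𝔓.valuation Ω (σ y) := hv
    have h3 := h.u0 Q hQ 𝔓' ((hO Q).2 h1) (by rw [hv', hθ, hf, ← hθ]; exact h2)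
    refine ⟨fun h4 => hsq 𝔓 𝔓' hv' x (h3.1 ((hev 𝔓 𝔓' hv' x).2 h4)), fun h4 => ?_⟩
    have h5 := hsq 𝔓 𝔓' hv' _ (h3.2 fun h6 => h4 ((hev 𝔓 𝔓' hv' x).1 h6))
    rw [map_mul, map_mul, hp, hθ, hf, ← hθ] at h5
    exact h5

end cond

section main

variable {L M Ω : Type} [Field L] [NumberField L] [Field M] [NumberField M] [Field Ω]
  [NumberField Ω] [Algebra L Ω] [Algebra M Ω] [IsGalois ℚ M] {a b : ℤ} {J : Finset ℤ} {θ : L}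

/-- The integer `θ` of `Ω`. -/
theorem exists_t (hc : IsCub a b θ) : ∃ t : 𝓞 Ω, algebraMap (𝓞 Ω) Ω t = algebraMap L Ω θ ∧
    t ^ 3 + (a : 𝓞 Ω) * t + (b : 𝓞 Ω) = 0 := by
  have hint : IsIntegral ℤ (algebraMap L Ω θ) := by
    have h1 : IsIntegral ℤ θ := by
      refine ⟨X ^ 3 + C a * X + C b, by monicity!, ?_⟩
      simp only [eval₂_add, eval₂_mul, eval₂_pow, eval₂_X, eval₂_C]
      have := hc.root
      simpa using this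
    exact h1.map (IsScalarTower.toAlgHom ℤ L Ω)
  refine ⟨⟨algebraMap L Ω θ, hint⟩, rfl, ?_⟩
  apply RingOfIntegers.ext
  have h1 := congrArg (algebraMap L Ω) hc.root
  rw [map_zero, map_add, map_add, map_mul, map_pow, map_intCast, map_intCast] at h1
  exact h1

theorem mem_of_unit (hD : Dat a b J) {Q : ℤ} (hQ : Q ∈ J) {w : HeightOneSpectrum (𝓞 Ω)}
    (hw : Ov Q w) {t : 𝓞 Ω} (ht : t ^ 3 + (a : 𝓞 Ω) * t + (b : 𝓞 Ω) = 0)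
    (h1 : w.valuation Ω (algebraMap (𝓞 Ω) Ω t) = 1) : t ^ 2 + (a : 𝓞 Ω) ∈ w.asIdeal := by
  have hnt : t ∉ w.asIdeal := by
    intro hm
    have := (w.valuation_lt_one_iff_mem (K := Ω) t).2 hm
    exact absurd h1 this.ne
  have hprod : t * (t ^ 2 + (a : 𝓞 Ω)) ∈ w.asIdeal := by
    have e : t * (t ^ 2 + (a : 𝓞 Ω)) = - (b : 𝓞 Ω) := by linear_combination ht
    rw [e]
    obtain ⟨c, hc⟩ := (hD.j Q hQ).2.2.1
    rw [hc, Int.cast_mul]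
    exact neg_mem (Ideal.mul_mem_right _ _ hw)
  exact (w.isPrime.mem_or_mem hprod).resolve_left hnt

/-- The element `Q θ` has odd valuation. -/
theorem odd_at (hEXQ : S_EXQ) (hc : IsCub a b θ) (hD : Dat a b J) (hM : Fld M a b J) {γ : M}
    (hγ : L⟮algebraMap M Ω γ⟯ = ⊤) {Q : ℤ} (hQ : Q ∈ J) (𝔓 : HeightOneSpectrum (𝓞 Ω))
    (h1 : Ov Q 𝔓) (h2 : 𝔓.valuation Ω (algebraMap L Ω θ) = 1) :
    ¬ Ev 𝔓 ((Q : Ω) * algebraMap L Ω θ) := by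
  obtain ⟨hpr, -, hb, hns⟩ := hD.j Q hQ
  obtain ⟨𝔭, h𝔭⟩ := exists_under L Ω 𝔓
  have hd : ¬ Q ∣ discr M := fun h => hD.not_nr hQ (hM.ram Q hpr.2 h)
  have hv := val_comp (L := L) hγ hpr.2 hd 𝔭 𝔓 h1
  obtain ⟨𝔓₁, 𝔮, h3, h4, h5, h7, h8, h9⟩ := hEXQ L (𝓞 L) a b θ hc hD.sq Q hpr.2 hb hns
  have e : (Q : Ω) * algebraMap L Ω θ = algebraMap L Ω ((Q : L) * θ) := by
    rw [map_mul, map_intCast]
  rw [e, ev_down hv]
  rcases h9 𝔭 ((ov_down hv Q).1 h1) with rfl | rfl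
  · rw [hv] at h2
    exact absurd h2 h5.ne
  · exact h8

/-- Integers are squares at the primes where `θ` is a unit. -/
theorem sq_at (hc : IsCub a b θ) (hD : Dat a b J) {Q : ℤ} (hQ : Q ∈ J)
    (𝔓 : HeightOneSpectrum (𝓞 Ω)) (h1 : Ov Q 𝔓)
    (h2 : 𝔓.valuation Ω (algebraMap L Ω θ) = 1) (m : ℤ) :
    ∃ s : Ω, 𝔓.valuation Ω (s ^ 2 - (m : Ω)) < 1 := by
  obtain ⟨hpr, -, hb, hns⟩ := hD.j Q hQ
  obtain ⟨t, ht, ht0⟩ := exists_t (Ω := Ω) hc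
  rw [← ht] at h2
  obtain ⟨s, hs⟩ := int_sq hpr.2 (hD.nd2 hQ) h1 hns (mem_of_unit hD hQ h1 ht0 h2) m
  refine ⟨algebraMap (𝓞 Ω) Ω s, ?_⟩
  have e : algebraMap (𝓞 Ω) Ω s ^ 2 - (m : Ω) = algebraMap (𝓞 Ω) Ω (s ^ 2 - (m : 𝓞 Ω)) := by
    rw [map_sub, map_pow, map_intCast]
  rw [e, HeightOneSpectrum.valuation_lt_one_iff_mem]
  exact hs

theorem not_ov_of {K : Type} [Field K] [NumberField K] {P Q : ℤ} (hP : IsPr P) (hQ : IsPr Q)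
    (hne : P ≠ Q) {w : HeightOneSpectrum (𝓞 K)} (h : Ov P w) : ¬ Ov Q w :=
  fun h' => hne (below_unique hP hQ h h')

/-- The conditions at the top. -/
theorem cn_top (hEXQ : S_EXQ) (hLIE : S_LIE) (hLOC1M : Pool.Agent.N874.PM.S_LOC1M)
    (hc : IsCub a b θ) (hD : Dat a b J) (hM : Fld M a b J) {γ : M}
    (hγ : L⟮algebraMap M Ω γ⟯ = ⊤) {h : M[X]}
    (hloc : ∀ w : HeightOneSpectrum (𝓞 M), ¬ Ov 2 w → PLoc (w.adicCompletion M)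
      (((a * (∏ Q ∈ J, Q) ^ 2 : ℤ)) : M) (((b * (∏ Q ∈ J, Q) ^ 3 : ℤ)) : M) h)
    (h0 : aeval (((∏ Q ∈ J, Q : ℤ) : Ω) * algebraMap L Ω θ) h ≠ 0) :
    Cn a b J (algebraMap L Ω θ) (aeval (((∏ Q ∈ J, Q : ℤ) : Ω) * algebraMap L Ω θ) h) := by
  have hroot : (algebraMap L Ω θ) ^ 3 + algebraMap M Ω (a : M) * algebraMap L Ω θ +
      algebraMap M Ω (b : M) = 0 := by
    have h1 := congrArg (algebraMap L Ω) hc.root
    rw [map_zero, map_add, map_add, map_mul, map_pow, map_intCast, map_intCast] at h1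
    rw [map_intCast, map_intCast]
    exact h1
  have hp2 : IsPr 2 := ⟨by norm_num, Int.prime_two⟩
  have hp3 : IsPr 3 := ⟨by norm_num, Int.prime_three⟩
  refine ⟨fun 𝔓 h1 h2 => ?_, fun Q hQ 𝔓 h𝔓 hθ => ?_⟩
  · obtain ⟨w, hw, hO⟩ := hLIE M Ω (𝓞 M) (𝓞 Ω) 𝔓
    obtain ⟨P, hP, hP𝔓⟩ := exists_below 𝔓
    have hnP : ¬ NR a b P := fun hn => h1 P hP hn hP𝔓
    have hd : ¬ P ∣ discr M := fun hd => hnP (hM.ram P hP.2 hd)
    obtain ⟨v, hv⟩ := val_rat hP.2 hd w ((hO P).2 hP𝔓)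
    have h2w : ¬ Ov 2 w := fun h => h1 2 hp2 hD.n2 ((hO 2).1 h)
    have h3w : ¬ Ov 3 w := fun h => h1 3 hp3 hD.n3 ((hO 3).1 h)
    have hD1 : w.valuation M (((∏ Q ∈ J, Q : ℤ)) : M) = 1 := by
      refine val_eq_of _ w fun h => ?_
      obtain ⟨Q, hQ, h'⟩ := ov_prod h
      exact h2 Q hQ ((hO Q).1 h')
    have hdisc : WithZero.exp (-1 : ℤ) ≤ w.valuation M (4 * (a : M) ^ 3 +
        27 * (b : M) ^ 2) := by
      have e : 4 * (a : M) ^ 3 + 27 * (b : M) ^ 2 =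
          algebraMap ℚ M ((dsc a b : ℤ) : ℚ) := by
        rw [map_intCast]
        simp [dsc]
      rw [e, hv]
      exact val_sqfree hD.sq v
    have e3 : algebraMap M Ω (((∏ P ∈ J, P : ℤ)) : M) = (((∏ P ∈ J, P : ℤ)) : Ω) :=
      map_intCast _ _
    have hl := hloc w h2w
    have hl' : PLoc (w.adicCompletion M) ((a : M) * (((∏ Q ∈ J, Q : ℤ)) : M) ^ 2)
        ((b : M) * (((∏ Q ∈ J, Q : ℤ)) : M) ^ 3) h := by
      have e1 : (((a * (∏ Q ∈ J, Q) ^ 2 : ℤ)) : M) = (a : M) * (((∏ Q ∈ J, Q : ℤ)) : M) ^ 2 := by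
        simp only [Int.cast_mul, Int.cast_pow]
      have e2 : (((b * (∏ Q ∈ J, Q) ^ 3 : ℤ)) : M) = (b : M) * (((∏ Q ∈ J, Q : ℤ)) : M) ^ 3 := by
        simp only [Int.cast_mul, Int.cast_pow]
      rw [← e1, ← e2]
      exact hl
    have h3 := hLOC1M M Ω (𝓞 M) (𝓞 Ω) w 𝔓 hw (a : M) (b : M)
      (((∏ P ∈ J, P : ℤ)) : M) (algebraMap L Ω θ) h hroot
      (val_six h2w h3w) (val_le a w) (val_le b w) hD1 hdisc hl'
      (by rw [e3]; exact h0)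
    rw [e3] at h3
    exact h3
  · obtain ⟨hpr, -, hb, hns⟩ := hD.j Q hQ
    obtain ⟨w, hw, hO⟩ := hLIE M Ω (𝓞 M) (𝓞 Ω) 𝔓
    have hQw : Ov Q w := (hO Q).2 h𝔓
    have hd : ¬ Q ∣ discr M := fun h => hD.not_nr hQ (hM.ram Q hpr.2 h)
    have h2w : ¬ Ov 2 w := not_ov_of hpr hp2 (fun h => hD.nd2 hQ (by rw [h])) hQw
    obtain ⟨v, hv⟩ := val_rat hpr.2 hd w hQw
    have hprod : (∏ P ∈ J, P) = Q * ∏ P ∈ J.erase Q, P := (Finset.mul_prod_erase J id hQ).symm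
    have hvQ : w.valuation M (Q : M) = v.valuation ℚ (Q : ℚ) := by
      rw [← hv, map_intCast (algebraMap ℚ M)]
    have hϖ : w.valuation M (Q : M) = WithZero.exp (-1 : ℤ) := by
      refine le_antisymm (val_le_exp w ?_ ((ov_val Q w).1 hQw)) ?_
      · exact_mod_cast hpr.2.ne_zero
      · rw [hvQ]
        exact val_sqfree hpr.2.irreducible.squarefree v
    have hD' : w.valuation M (((∏ P ∈ J.erase Q, P : ℤ)) : M) = 1 := by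
      refine val_eq_of _ w fun h => ?_
      obtain ⟨P, hP, hP'⟩ := ov_prod h
      exact Finset.ne_of_mem_erase hP (below_unique (hD.j P (Finset.mem_of_mem_erase hP)).1 hpr
        hP' hQw)
    have hb1 : w.valuation M (b : M) < 1 := by
      rw [← ov_val]
      obtain ⟨c, hc⟩ := hb
      unfold Ov at hQw ⊢
      rw [hc, Int.cast_mul]
      exact Ideal.mul_mem_right _ _ hQw
    have e1 : (((a * (∏ Q ∈ J, Q) ^ 2 : ℤ)) : M) = (a : M) *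
        ((Q : M) * (((∏ P ∈ J.erase Q, P : ℤ)) : M)) ^ 2 := by
      rw [hprod]
      simp only [Int.cast_mul, Int.cast_pow]
    have e2 : (((b * (∏ Q ∈ J, Q) ^ 3 : ℤ)) : M) = (b : M) *
        ((Q : M) * (((∏ P ∈ J.erase Q, P : ℤ)) : M)) ^ 3 := by
      rw [hprod]
      simp only [Int.cast_mul, Int.cast_pow]
    have e3 : algebraMap M Ω ((Q : M) * (((∏ P ∈ J.erase Q, P : ℤ)) : M)) =
        (((∏ P ∈ J, P : ℤ)) : Ω) := by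
      rw [hprod, map_mul, map_intCast, map_intCast, Int.cast_mul]
    have hl := hloc w h2w
    rw [e1, e2] at hl
    have hsq := sq_at (Ω := Ω) hc hD hQ 𝔓 h𝔓 hθ
    have hodd := odd_at hEXQ hc hD hM hγ hQ 𝔓 h𝔓 hθ
    have h2 := loc2n M Ω (𝓞 M) (𝓞 Ω) w 𝔓 hw (a : M) (b : M)
      (Q : M) (((∏ P ∈ J.erase Q, P : ℤ)) : M) (algebraMap L Ω θ) h hroot
      (val_two h2w) (val_le a w) hb1 hϖ hD' hl (by rw [e3]; exact h0)
      (by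
        obtain ⟨s, hs⟩ := hsq (-(∏ P ∈ J.erase Q, P))
        exact ⟨s, by rw [map_neg, map_intCast]; rwa [Int.cast_neg] at hs⟩)
      (by
        obtain ⟨s, hs⟩ := hsq (-2 * (∏ P ∈ J.erase Q, P))
        refine ⟨s, ?_⟩
        rw [map_mul, map_neg, map_intCast, map_ofNat]
        rwa [Int.cast_mul, Int.cast_neg, Int.cast_ofNat] at hs)
      (by
        obtain ⟨s, hs⟩ := hsq 2
        refine ⟨s, ?_⟩
        rw [map_ofNat]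
        rwa [Int.cast_ofNat] at hs) hθ (by rw [map_intCast (algebraMap M Ω)]; exact hodd)
    rw [e3, map_intCast (algebraMap M Ω)] at h2
    exact h2

/-- The base of the descent. -/
theorem base_cn (hP3 : S_P3) (hI : S_INT)
    (hsel : ∀ α : L, α ≠ 0 → IsSquare (Algebra.norm ℚ α) → Loc2 a b θ α →
      (∀ 𝔓 : HeightOneSpectrum (𝓞 L), (∀ Q ∈ J, ¬ Ov Q 𝔓) → Ev 𝔓 α) →
      (∀ Q ∈ J, ∀ 𝔓 : HeightOneSpectrum (𝓞 L), Ov Q 𝔓 → 𝔓.valuation L θ = 1 →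
        U0 𝔓 ((Q : L) * θ) α) →
      (∀ Q ∈ J, ∀ 𝔓 : HeightOneSpectrum (𝓞 L), Ov Q 𝔓 → 𝔓.valuation L θ < 1 → Ev 𝔓 α) →
      IsSquare α)
    (hc : IsCub a b θ) (hD : Dat a b J) (hM : Fld M a b J) {γ : M}
    (hγ : L⟮algebraMap M Ω γ⟯ = ⊤) {x : L} (hx : x ≠ 0)
    (hC : Cn a b J (algebraMap L Ω θ) (algebraMap L Ω x))
    (hl2 : Loc2 a b θ x) (hN : IsSquare (Algebra.norm ℚ x)) : IsSquare x := by
  refine hsel x hx hN hl2 (fun 𝔓 h𝔓 => ?_) (fun Q hQ 𝔓 h1 h2 => ?_) (fun Q hQ 𝔓 h1 h2 => ?_)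
  · obtain ⟨P, hP, hP𝔓⟩ := exists_below 𝔓
    by_cases hn : NR a b P
    · exact hP3 L (𝓞 L) a b θ hc hD.sq P hP.2 hn x hx hN 𝔓 hP𝔓
    · have hd : ¬ P ∣ discr M := fun hd => hn (hM.ram P hP.2 hd)
      obtain ⟨𝔓', h𝔓'⟩ := exists_above L Ω 𝔓
      have hPO : Ov P 𝔓' := (int_mem_of_liesOver 𝔓 𝔓' P).2 hP𝔓
      have hv := val_comp (L := L) hγ hP.2 hd 𝔓 𝔓' hPO
      rw [← ev_down hv]
      refine hC.ev 𝔓' (fun P' hP' hn' h' => ?_) (fun Q hQ h => h𝔓 Q hQ ((ov_down hv Q).1 h))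
      rw [below_unique hP' hP h' hPO] at hn'
      exact hn hn'
  · obtain ⟨hpr, -, hb, hns⟩ := hD.j Q hQ
    have hd : ¬ Q ∣ discr M := fun h => hD.not_nr hQ (hM.ram Q hpr.2 h)
    obtain ⟨𝔓', h𝔓'⟩ := exists_above L Ω 𝔓
    have hQ' : Ov Q 𝔓' := (int_mem_of_liesOver 𝔓 𝔓' Q).2 h1
    have hv := val_comp (L := L) hγ hpr.2 hd 𝔓 𝔓' hQ'
    have hθ' : 𝔓'.valuation Ω (algebraMap L Ω θ) = 1 := by rw [hv]; exact h2
    -- density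
    obtain ⟨t, ht, ht0⟩ := exists_t (L := L) (Ω := L) hc
    have htL : algebraMap (𝓞 L) L t = θ := ht
    obtain ⟨w, hw⟩ := exists_under M Ω 𝔓'
    have hQw : Ov Q w := (int_mem_of_liesOver w 𝔓' Q).1 hQ'
    have ht0' : (algebraMap (𝓞 L) (𝓞 Ω) t) ^ 3 + (a : 𝓞 Ω) * algebraMap (𝓞 L) (𝓞 Ω) t +
        (b : 𝓞 Ω) = 0 := by
      have h3 := congrArg (algebraMap (𝓞 L) (𝓞 Ω)) ht0
      rw [map_zero, map_add, map_add, map_mul, map_pow, map_intCast, map_intCast] at h3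
      exact h3
    have htΩ : algebraMap (𝓞 Ω) Ω (algebraMap (𝓞 L) (𝓞 Ω) t) = algebraMap L Ω θ := by
      rw [← htL]
      rfl
    have hmem := mem_of_unit hD hQ hQ' ht0' (by rw [htΩ]; exact hθ')
    have hd' := dens_comp (L := L) hγ hpr.2 hd 𝔓 𝔓' hQ' (fun x => by
      have h3 := hM.res Q hQ w hQw x
      have h4 : (algebraMap (𝓞 M) (𝓞 Ω) x) ^ (Q.natAbs ^ 2) - algebraMap (𝓞 M) (𝓞 Ω) x ∈
          𝔓'.asIdeal := by
        rw [← map_pow, ← map_sub, mem_of_liesOver w 𝔓']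
        exact h3
      obtain ⟨u, v, huv⟩ := repr_mod hpr.2 (hD.nd2 hQ) hQ' hns hmem _ h4
      refine ⟨(u : 𝓞 L) + v * t, ?_⟩
      rw [map_add, map_mul, map_intCast, map_intCast]
      exact huv)
    have h3 := hC.u0 Q hQ 𝔓' hQ' hθ'
    refine ⟨fun h4 => sq_down hv hd' (h3.1 ((ev_down hv x).2 h4)), fun h4 => ?_⟩
    have h5 := h3.2 fun h6 => h4 ((ev_down hv x).1 h6)
    have e : algebraMap L Ω x * ((Q : Ω) * algebraMap L Ω θ) =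
        algebraMap L Ω (x * ((Q : L) * θ)) := by
      rw [map_mul, map_mul, map_intCast]
    rw [e] at h5
    exact sq_down hv hd' h5
  · obtain ⟨hpr, -, hb, hns⟩ := hD.j Q hQ
    exact ev_one hI hc hD.sq hpr.2 hb hns hx hN h1 h2

end main

end Pool.Agent.H62.QM
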