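import Pool.Graph.R_seed8.W401.Cheb.Main

/-!
# An element of order three in the Galois group of a cubic polynomial
-/

set_option autoImplicit false
set_option linter.all false

open Polynomial NumberField

namespace Pool.Agent.H62.QM

section grp

variable {F : Type} [Field F] [CharZero F] {f : F[X]} (hirr : Irreducible f)
  (hdeg : f.natDegree = 3)

include hirr hdeg

theorem card_rootSet : Nat.card (f.rootSet f.SplittingField) = 3 := by
  classical
  rw [Nat.card_eq_fintype_card, Polynomial.card_rootSet_eq_natDegree hirr.separable (SplittingField.splits f), hdeg]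

omit hirr hdeg in
theorem perm_inj : Function.Injective (MulAction.toPermHom f.Gal (f.rootSet f.SplittingField)) := by
  rw [injective_iff_map_eq_one]
  intro ϕ hϕ
  apply Polynomial.Gal.ext
  intro x hx
  have h1 := congrArg (fun π : Equiv.Perm (f.rootSet f.SplittingField) => (π ⟨x, hx⟩ : f.SplittingField)) hϕ
  exact h1

theorem card_gal_le : Nat.card f.Gal ≤ 6 := by
  classical
  have h1 := Nat.card_le_card_of_injective _ (perm_inj (f := f))
  rw [Nat.card_perm, card_rootSet hirr hdeg] at h1
  simpa [Nat.factorial] using h1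

theorem exists_order : ∃ g : f.Gal, orderOf g = 3 ∧
    ∀ s : f.SplittingField, aeval s f = 0 → g s ≠ s := by
  classical
  have h3 : 3 ∣ Nat.card f.Gal := by
    have := Polynomial.Gal.prime_degree_dvd_card hirr (by rw [hdeg]; norm_num)
    rwa [hdeg] at this
  haveI : Fact (Nat.Prime 3) := ⟨Nat.prime_three⟩
  obtain ⟨g, hg⟩ := exists_prime_orderOf_dvd_card' 3 h3
  refine ⟨g, hg, fun s hs hgs => ?_⟩
  set π := MulAction.toPermHom f.Gal (f.rootSet f.SplittingField) g with hπ
  have hord : orderOf π = 3 := by
    rw [hπ, orderOf_injective _ perm_inj, hg]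
  have hcard := card_rootSet hirr hdeg
  rw [Nat.card_eq_fintype_card] at hcard
  have hcyc : π.IsCycle := Equiv.Perm.isCycle_of_prime_order' (by rw [hord]; norm_num)
    (by rw [hord, hcard]; norm_num)
  have hsup := hcyc.orderOf
  rw [hord] at hsup
  have huniv : π.support = Finset.univ := by
    apply Finset.eq_univ_of_card
    rw [← hsup, hcard]
  have hs' : s ∈ f.rootSet f.SplittingField := by
    rw [mem_rootSet]
    exact ⟨hirr.ne_zero, hs⟩
  have hmem : (⟨s, hs'⟩ : f.rootSet f.SplittingField) ∈ π.support := by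
    rw [huniv]
    exact Finset.mem_univ _
  rw [Equiv.Perm.mem_support] at hmem
  apply hmem
  apply Subtype.ext
  exact hgs

/-- The same in any splitting field. -/
theorem exists_order' {N : Type} [Field N] [Algebra F N] [IsSplittingField F N f] :
    Nat.card (N ≃ₐ[F] N) ≤ 6 ∧ ∃ g : N ≃ₐ[F] N, orderOf g = 3 ∧
    ∀ s : N, aeval s f = 0 → g s ≠ s := by
  obtain ⟨g, hg, hs⟩ := exists_order hirr hdeg
  let e : N ≃ₐ[F] f.SplittingField := IsSplittingField.algEquiv N f
  let E : (N ≃ₐ[F] N) ≃* (f.SplittingField ≃ₐ[F] f.SplittingField) := AlgEquiv.autCongr e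
  refine ⟨?_, E.symm g, ?_, fun s h h' => ?_⟩
  · rw [Nat.card_congr E.toEquiv]
    exact card_gal_le hirr hdeg
  · rw [← hg]
    exact orderOf_injective E.symm.toMonoidHom E.symm.injective g
  · apply hs (e s)
    · have h1 := Polynomial.aeval_algHom_apply (e : N →ₐ[F] f.SplittingField) s f
      rw [h, map_zero] at h1
      exact h1
    · have h1 : (E.symm g) s = e.symm (g (e s)) := rfl
      rw [h1] at h'
      have h2 := congrArg e h'
      rwa [AlgEquiv.apply_symm_apply] at h2

end grp

theorem exists_sf (F : Type) [Field F] (f : F[X]) : ∃ (N : Type) (_ : Field N) (_ : Algebra F N),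
    IsSplittingField F N f :=
  ⟨f.SplittingField, inferInstance, inferInstance, inferInstance⟩

/-- A splitting field of an irreducible cubic polynomial. -/
theorem exists_split {f : ℚ[X]} (hirr : Irreducible f) (hdeg : f.natDegree = 3) :
    ∃ (N : Type) (_ : Field N) (_ : NumberField N) (_ : IsGalois ℚ N),
      Nat.card (N ≃ₐ[ℚ] N) ≤ 6 ∧ (∃ s : N, aeval s f = 0) ∧ ∃ g : N ≃ₐ[ℚ] N, orderOf g = 3 ∧
        ∀ s : N, aeval s f = 0 → g s ≠ s := by
  obtain ⟨N, iF, iA, hs⟩ := exists_sf ℚ f
  haveI : CharZero N := charZero_of_injective_algebraMap (algebraMap ℚ N).injective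
  obtain rfl : iA = DivisionRing.toRatAlgebra := Subsingleton.elim _ _
  haveI : FiniteDimensional ℚ N := IsSplittingField.finiteDimensional N f
  haveI : NumberField N := ⟨⟩
  haveI : IsGalois ℚ N := IsGalois.of_separable_splitting_field hirr.separable
  obtain ⟨h1, h2⟩ := exists_order' (N := N) hirr hdeg
  refine ⟨N, iF, inferInstance, inferInstance, h1, ?_, h2⟩
  obtain ⟨s, hs'⟩ := (IsSplittingField.splits N f).exists_eval_eq_zero (by
    rw [degree_map, degree_eq_natDegree hirr.ne_zero, hdeg]
    norm_num)
  exact ⟨s, by rwa [eval_map_algebraMap] at hs'⟩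

end Pool.Agent.H62.QM
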