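import Pool.Agent.H62.QM.Main

/-!
# Fields generated by square roots
-/

set_option autoImplicit false
set_option linter.all false

open NumberField IsDedekindDomain Ideal Algebra
open scoped Pointwise

namespace Pool.Agent.H62.QM

/-- `K` is generated by square roots of integers `d`, `d = 1` modulo `4`, such that
`X ^ 3 + A X + B` has no zero modulo the prime divisors of `d`. -/
def MultiF (K : Type) [Field K] [NumberField K] (p : ℤ × ℤ) : Prop :=
  ∃ D : Set K, IntermediateField.adjoin ℚ D = ⊤ ∧ ∀ x ∈ D, ∃ d : ℤ, x ^ 2 = (d : K) ∧ d % 4 = 1 ∧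
    ∀ ℓ : ℕ, ℓ.Prime → (ℓ : ℤ) ∣ d → ∀ z : ℤ, ¬ (ℓ : ℤ) ∣ z ^ 3 + p.1 * z + p.2

section multi

variable {K : Type} [Field K] [NumberField K] {D : Set K}
  (htop : IntermediateField.adjoin ℚ D = ⊤) (hD : ∀ x ∈ D, ∃ d : ℤ, x ^ 2 = (d : K))

include htop in
theorem aut_eq {σ : K ≃ₐ[ℚ] K} (h : ∀ x ∈ D, σ x = x) : σ = 1 := by
  have h1 : ∀ y ∈ IntermediateField.adjoin ℚ D, σ y = y := by
    intro y hy
    induction hy using IntermediateField.adjoin_induction with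
    | mem x hx => exact h x hx
    | algebraMap x => exact σ.commutes x
    | add x y _ _ hx hy => rw [map_add, hx, hy]
    | mul x y _ _ hx hy => rw [map_mul, hx, hy]
    | inv x _ hx => rw [map_inv₀, hx]
  ext y
  exact h1 y (by rw [htop]; trivial)

include hD in
theorem aut_or (σ : K ≃ₐ[ℚ] K) {x : K} (hx : x ∈ D) : σ x = x ∨ σ x = -x := by
  obtain ⟨d, hd⟩ := hD x hx
  have h1 : (σ x) ^ 2 = x ^ 2 := by
    rw [← map_pow, hd, map_intCast]
  exact sq_eq_sq_iff_eq_or_eq_neg.1 h1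

include htop hD in
theorem aut_sq (σ : K ≃ₐ[ℚ] K) : σ * σ = 1 := by
  refine aut_eq htop fun x hx => ?_
  rw [AlgEquiv.mul_apply]
  rcases aut_or hD σ hx with h | h
  · rw [h, h]
  · rw [h, map_neg, h, neg_neg]

include htop hD in
theorem multi_gal : IsGalois ℚ K := by
  have hn : Normal ℚ K := by
    rw [normal_iff]
    intro y
    refine ⟨Algebra.IsIntegral.isIntegral y, ?_⟩
    refine IntermediateField.splits_of_mem_adjoin (F := ℚ) (K := K) (L := K) (S := D)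
      (fun x hx => ⟨Algebra.IsIntegral.isIntegral x, ?_⟩) (by rw [htop]; trivial)
    obtain ⟨d, hd⟩ := hD x hx
    have h1 : (minpoly ℚ x).map (algebraMap ℚ K) ∣
        (Polynomial.X - Polynomial.C x) * (Polynomial.X - Polynomial.C (-x)) := by
      have h2 : minpoly ℚ x ∣ Polynomial.X ^ 2 - Polynomial.C (d : ℚ) := by
        apply minpoly.dvd
        rw [map_sub, map_pow, Polynomial.aeval_X, Polynomial.aeval_C, hd, map_intCast, sub_self]
      have h3 := Polynomial.map_dvd (algebraMap ℚ K) h2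
      have e : (Polynomial.X ^ 2 - Polynomial.C (d : ℚ)).map (algebraMap ℚ K) =
          (Polynomial.X - Polynomial.C x) * (Polynomial.X - Polynomial.C (-x)) := by
        rw [Polynomial.map_sub, Polynomial.map_pow, Polynomial.map_X, Polynomial.map_C,
          map_intCast, ← hd, map_neg, map_pow]
        ring
      rwa [e] at h3
    refine Polynomial.Splits.of_dvd ?_ ?_ h1
    · exact (Polynomial.Splits.X_sub_C x).mul (Polynomial.Splits.X_sub_C (-x))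
    · exact mul_ne_zero (Polynomial.X_sub_C_ne_zero x) (Polynomial.X_sub_C_ne_zero (-x))
  exact ⟨⟩

include htop hD in
theorem multi_deg : ∃ n : ℕ, Module.finrank ℚ K = 2 ^ n := by
  haveI := multi_gal htop hD
  haveI : Fact (Nat.Prime 2) := ⟨Nat.prime_two⟩
  rw [← IsGalois.card_aut_eq_finrank ℚ K]
  exact IsPGroup.iff_card.1 fun σ => ⟨1, by rw [pow_one, pow_two]; exact aut_sq htop hD σ⟩

theorem under_eq {P : Ideal (𝓞 K)} [P.IsPrime] {ℓ : ℕ} (hℓ : ℓ.Prime) (h : (ℓ : 𝓞 K) ∈ P) :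
    P.under ℤ = Ideal.span {(ℓ : ℤ)} := by
  have hp : Prime (ℓ : ℤ) := Nat.prime_iff_prime_int.1 hℓ
  have h1 : P.LiesOver (.span {(ℓ : ℤ)}) :=
    (Ideal.liesOver_span_iff (Ideal.IsPrime.ne_top') hp).2 (by exact_mod_cast h)
  exact h1.over.symm

include htop hD in
theorem multi_res {P : Ideal (𝓞 K)} [P.IsPrime] {ℓ : ℕ} (hℓ : ℓ.Prime) (h : (ℓ : 𝓞 K) ∈ P)
    (x : 𝓞 K) : x ^ (ℓ ^ 2) - x ∈ P := by
  haveI := multi_gal htop hD
  have hne : P ≠ ⊥ := by
    rintro rfl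
    rw [Ideal.mem_bot] at h
    exact hℓ.ne_zero (by exact_mod_cast h)
  haveI : Finite (𝓞 K ⧸ P) := Ideal.finiteQuotientOfFreeOfNeBot P hne
  obtain ⟨σ, hσ⟩ := IsArithFrobAt.exists_of_isInvariant ℤ (K ≃ₐ[ℚ] K) P
  have hc : Nat.card (ℤ ⧸ P.under ℤ) = ℓ := by
    rw [under_eq hℓ h, Nat.card_congr (Int.quotientSpanEquivZMod (ℓ : ℤ)).toEquiv, Int.natAbs_natCast,
      Nat.card_zmod]
  have h1 : ∀ y : 𝓞 K, σ • y - y ^ ℓ ∈ P := by
    intro y
    have := hσ y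
    rwa [hc] at this
  have h2 : σ • (σ • x) = x := by
    rw [← mul_smul, aut_sq htop hD σ, one_smul]
  have h3 := h1 (σ • x)
  rw [h2] at h3
  have h4 : (σ • x) ^ ℓ - (x ^ ℓ) ^ ℓ ∈ P := by
    obtain ⟨c, hc⟩ := sub_dvd_pow_sub_pow (σ • x) (x ^ ℓ) ℓ
    rw [hc]
    exact Ideal.mul_mem_right _ _ (h1 x)
  have h5 := P.add_mem h3 h4
  have e : x - (σ • x) ^ ℓ + ((σ • x) ^ ℓ - (x ^ ℓ) ^ ℓ) = -(x ^ (ℓ ^ 2) - x) := by
    rw [pow_two ℓ, pow_mul]
    ring
  rw [e] at h5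
  exact neg_mem_iff.1 h5

include htop in
/-- A prime which divides none of the `d` is unramified. -/
theorem multi_ram (hD' : ∀ x ∈ D, ∃ d : ℤ, x ^ 2 = (d : K) ∧ d % 4 = 1) {ℓ : ℕ} (hℓ : ℓ.Prime)
    (h : (ℓ : ℤ) ∣ discr K) : ∃ x ∈ D, ∃ d : ℤ, x ^ 2 = (d : K) ∧ (ℓ : ℤ) ∣ d := by
  have hD : ∀ x ∈ D, ∃ d : ℤ, x ^ 2 = (d : K) := fun x hx => by
    obtain ⟨d, hd, -⟩ := hD' x hx
    exact ⟨d, hd⟩
  haveI := multi_gal htop hD
  by_contra hcon
  push Not at hcon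
  have hp : Prime (ℓ : ℤ) := Nat.prime_iff_prime_int.1 hℓ
  apply (not_dvd_discr_iff_forall_mem K (𝓞 K) hp).2 _ h
  intro P hP hℓP
  haveI := hP
  have hℓP' : (ℓ : 𝓞 K) ∈ P := by exact_mod_cast hℓP
  rw [← Ideal.ramificationIdx_eq_one_iff]
  haveI hl : P.LiesOver (.span {(ℓ : ℤ)}) :=
    (Ideal.liesOver_span_iff (Ideal.IsPrime.ne_top') hp).2 hℓP
  haveI : (Ideal.span {(ℓ : ℤ)}).IsPrime := (Ideal.span_singleton_prime hp.ne_zero).2 hp
  haveI : (Ideal.span {(ℓ : ℤ)}).IsMaximal :=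
    PrincipalIdealRing.isMaximal_of_irreducible hp.irreducible
  have h2 := card_inertia_eq_ramificationIdxIn (G := (K ≃ₐ[ℚ] K)) (Ideal.span {(ℓ : ℤ)}) P
  rw [ramificationIdxIn_eq_ramificationIdx (Ideal.span {(ℓ : ℤ)}) P (K ≃ₐ[ℚ] K)] at h2
  rw [← h2, Nat.card_eq_one_iff_unique]
  have key : ∀ σ : K ≃ₐ[ℚ] K, (∀ x : 𝓞 K, σ • x - x ∈ P) → σ = 1 := by
    intro σ hσ
    refine aut_eq htop fun x hx => ?_
    rcases aut_or hD σ hx with h3 | h3
    · exact h3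
    · exfalso
      obtain ⟨d, hd, hd4⟩ := hD' x hx
      obtain ⟨m, hm⟩ : ∃ m : ℤ, d = 4 * m + 1 := ⟨d / 4, by omega⟩
      have hint : IsIntegral ℤ ((1 + x) / 2) := by
        refine ⟨Polynomial.X ^ 2 - Polynomial.X - Polynomial.C m, by monicity!, ?_⟩
        simp only [Polynomial.eval₂_sub, Polynomial.eval₂_pow, Polynomial.eval₂_X,
          Polynomial.eval₂_C]
        have h4 : x ^ 2 = 4 * (m : K) + 1 := by rw [hd, hm]; push_cast; ring
        have e : ((1 + x) / 2) ^ 2 - (1 + x) / 2 - (m : K) = (x ^ 2 - (4 * (m : K) + 1)) / 4 := by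
          ring
        rw [eq_intCast, e, h4, sub_self, zero_div]
      obtain ⟨g, hg⟩ : ∃ g : 𝓞 K, (g : K) = (1 + x) / 2 := ⟨⟨_, hint⟩, rfl⟩
      have h5 := hσ g
      have h6 : (σ • g - g) ^ 2 = (d : 𝓞 K) := by
        apply RingOfIntegers.ext
        have e : ((σ • g - g : 𝓞 K) : K) = -x := by
          have e1 : ((σ • g - g : 𝓞 K) : K) = σ (g : K) - (g : K) := rfl
          have e2 : σ (2 : K) = 2 := map_ofNat σ 2
          rw [e1, hg, map_div₀, map_add, map_one, h3, e2]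
          ring
        have e3 : (((σ • g - g) ^ 2 : 𝓞 K) : K) = ((σ • g - g : 𝓞 K) : K) ^ 2 := rfl
        rw [e3, e, neg_sq, hd]
        rfl
      have h7 : (d : 𝓞 K) ∈ P := by
        rw [← h6]
        exact Ideal.pow_mem_of_mem P h5 2 (by norm_num)
      have h8 : d ∈ P.under ℤ := by
        rw [Ideal.mem_comap]
        simpa using h7
      rw [under_eq hℓ hℓP', Ideal.mem_span_singleton] at h8
      exact hcon x hx d hd h8
  constructor
  · constructor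
    rintro ⟨σ, hσ⟩ ⟨τ, hτ⟩
    rw [Subtype.mk.injEq, key σ (fun x => hσ x), key τ (fun x => hτ x)]
  · exact ⟨1⟩

end multi

theorem adm_of_multi {K : Type} [Field K] [NumberField K] {p : ℤ × ℤ} (h : MultiF K p) :
    AdmF K p := by
  obtain ⟨D, htop, hD'⟩ := h
  have hD : ∀ x ∈ D, ∃ d : ℤ, x ^ 2 = (d : K) := fun x hx => by
    obtain ⟨d, hd, -⟩ := hD' x hx
    exact ⟨d, hd⟩
  refine ⟨multi_gal htop hD, multi_deg htop hD, fun ℓ hℓ hd => ?_,
    fun ℓ hℓ _ _ 𝔭 h𝔭 hm x => multi_res htop hD hℓ hm x⟩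
  obtain ⟨x, hx, d, hxd, hℓd⟩ := multi_ram htop (fun x hx => by
    obtain ⟨d, hd, h4, -⟩ := hD' x hx
    exact ⟨d, hd, h4⟩) hℓ hd
  obtain ⟨d', hxd', h4, hr⟩ := hD' x hx
  have e : d = d' := by
    have : (d : K) = (d' : K) := by rw [← hxd, hxd']
    exact_mod_cast this
  rw [e] at hℓd
  refine ⟨?_, hr ℓ hℓ hℓd⟩
  rintro rfl
  obtain ⟨m, hm⟩ := hℓd
  push_cast at hm
  omega

end Pool.Agent.H62.QM
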