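import Mathlib

/-!
# Ramification and residue fields in the compositum with a Galois extension of `ℚ`
-/

set_option autoImplicit false
set_option linter.all false

open NumberField IsDedekindDomain Ideal Algebra
open scoped Pointwise

namespace Pool.Agent.H62.QM

section gal

variable {K L : Type} [Field K] [NumberField K] [Field L] [NumberField L] [Algebra K L]
  [IsGalois K L]

theorem liesOver_card (v : HeightOneSpectrum (𝓞 K)) (w : HeightOneSpectrum (𝓞 L))
    [w.asIdeal.LiesOver v.asIdeal]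
    (h : ∀ σ : L ≃ₐ[K] L, (∀ x : 𝓞 L, σ • x - x ∈ w.asIdeal) → σ = 1) :
    w.asIdeal.ramificationIdx (𝓞 K) = 1 := by
  haveI := v.isPrime
  haveI := w.isPrime
  haveI : v.asIdeal.IsMaximal := v.isMaximal
  have h1 := card_inertia_eq_ramificationIdxIn (G := (L ≃ₐ[K] L)) v.asIdeal w.asIdeal
  rw [ramificationIdxIn_eq_ramificationIdx v.asIdeal w.asIdeal (L ≃ₐ[K] L)] at h1
  rw [← h1, Nat.card_eq_one_iff_unique]
  constructor
  · constructor
    rintro ⟨σ, hσ⟩ ⟨τ, hτ⟩
    rw [Subtype.mk.injEq, h σ (fun x => hσ x), h τ (fun x => hτ x)]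
  · exact ⟨1⟩

theorem val_of_inertia (v : HeightOneSpectrum (𝓞 K)) (w : HeightOneSpectrum (𝓞 L))
    [w.asIdeal.LiesOver v.asIdeal]
    (h : ∀ σ : L ≃ₐ[K] L, (∀ x : 𝓞 L, σ • x - x ∈ w.asIdeal) → σ = 1) (x : K) :
    w.valuation L (algebraMap K L x) = v.valuation K x := by
  haveI := w.isPrime
  rw [← HeightOneSpectrum.valuation_liesOver L v w x,
    ramificationIdx'_eq_ramificationIdx v.asIdeal w.asIdeal v.ne_bot, liesOver_card v w h, pow_one]

/-- If the decomposition group is trivial the residue field does not change. -/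
theorem res_of_decomp (v : HeightOneSpectrum (𝓞 K)) (w : HeightOneSpectrum (𝓞 L))
    [w.asIdeal.LiesOver v.asIdeal]
    (h : ∀ σ : L ≃ₐ[K] L, (∀ x ∈ w.asIdeal, σ • x ∈ w.asIdeal) → σ = 1) (x : 𝓞 L) :
    ∃ y : 𝓞 K, x - algebraMap (𝓞 K) (𝓞 L) y ∈ w.asIdeal := by
  haveI := v.isPrime
  haveI := w.isPrime
  haveI : v.asIdeal.IsMaximal := v.isMaximal
  haveI : w.asIdeal.IsMaximal := w.isMaximal
  have h1 := card_stabilizer_eq_card_inertia_mul_finrank (G := (L ≃ₐ[K] L)) v.asIdeal w.asIdeal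
  have h2 : Nat.card (MulAction.stabilizer (L ≃ₐ[K] L) w.asIdeal) = 1 := by
    rw [Nat.card_eq_one_iff_unique]
    constructor
    · constructor
      have key : ∀ σ : L ≃ₐ[K] L, σ ∈ MulAction.stabilizer (L ≃ₐ[K] L) w.asIdeal → σ = 1 := by
        intro σ hσ
        refine h σ fun x hx => ?_
        rw [MulAction.mem_stabilizer_iff] at hσ
        rw [← hσ]
        exact Ideal.smul_mem_pointwise_smul σ x _ hx
      rintro ⟨σ, hσ⟩ ⟨τ, hτ⟩
      rw [Subtype.mk.injEq, key σ hσ, key τ hτ]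
    · exact ⟨1⟩
  rw [h2] at h1
  have h3 : w.asIdeal.inertiaDeg (𝓞 K) = 1 := Nat.eq_one_of_mul_eq_one_left h1.symm
  rw [inertiaDeg_eq_of_isMaximal v.asIdeal w.asIdeal] at h3
  letI : Field (𝓞 K ⧸ v.asIdeal) := Ideal.Quotient.field v.asIdeal
  have h4 : ∃ c : 𝓞 K ⧸ v.asIdeal, c • (1 : 𝓞 L ⧸ w.asIdeal) = Ideal.Quotient.mk _ x := by
    have := (finrank_eq_one_iff_of_nonzero' (1 : 𝓞 L ⧸ w.asIdeal) one_ne_zero).1 h3
    exact this _
  obtain ⟨c, hc⟩ := h4
  obtain ⟨y, rfl⟩ := Ideal.Quotient.mk_surjective c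
  refine ⟨y, ?_⟩
  rw [← Ideal.Quotient.eq, ← hc, Algebra.smul_def, mul_one]
  rfl

end gal

section base

variable {M : Type} [Field M] [NumberField M] [IsGalois ℚ M]

/-- The inertia group of an unramified prime is trivial. -/
theorem inertia_trivial {p : ℤ} (hp : Prime p) (hd : ¬ p ∣ discr M) (P : Ideal (𝓞 M))
    [P.IsPrime] (hP : (p : 𝓞 M) ∈ P) (σ : M ≃ₐ[ℚ] M) (hσ : ∀ x : 𝓞 M, σ • x - x ∈ P) :
    σ = 1 := by
  have h0 := (not_dvd_discr_iff_forall_mem M (𝓞 M) hp).1 hd P inferInstance hP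
  have h1 := Ideal.ramificationIdx_eq_one_iff.mpr h0
  haveI hl : P.LiesOver (.span {p}) := (Ideal.liesOver_span_iff (Ideal.IsPrime.ne_top') hp).2 hP
  haveI : (Ideal.span {p}).IsPrime := (Ideal.span_singleton_prime hp.ne_zero).2 hp
  haveI : (Ideal.span {p}).IsMaximal := PrincipalIdealRing.isMaximal_of_irreducible hp.irreducible
  have h2 := card_inertia_eq_ramificationIdxIn (G := (M ≃ₐ[ℚ] M)) (Ideal.span {p}) P
  rw [ramificationIdxIn_eq_ramificationIdx (Ideal.span {p}) P (M ≃ₐ[ℚ] M), h1,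
    Nat.card_eq_one_iff_unique] at h2
  haveI := h2.1
  have h3 : (⟨σ, fun x => hσ x⟩ : inertia (M ≃ₐ[ℚ] M) P) = ⟨1, one_mem _⟩ := Subsingleton.elim _ _
  exact congrArg Subtype.val h3

theorem val_rat {p : ℤ} (hp : Prime p) (hd : ¬ p ∣ discr M) (w : HeightOneSpectrum (𝓞 M))
    (hw : (p : 𝓞 M) ∈ w.asIdeal) : ∃ v : HeightOneSpectrum ℤ,
      ∀ x : ℚ, w.valuation M (algebraMap ℚ M x) = v.valuation ℚ x := by
  haveI := w.isPrime
  have h0 := (not_dvd_discr_iff_forall_mem M (𝓞 M) hp).1 hd w.asIdeal inferInstance hw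
  have h1 := Ideal.ramificationIdx_eq_one_iff.mpr h0
  haveI hl : w.asIdeal.LiesOver (.span {p}) := (Ideal.liesOver_span_iff (Ideal.IsPrime.ne_top') hp).2 hw
  haveI hpp : (Ideal.span {p}).IsPrime := (Ideal.span_singleton_prime hp.ne_zero).2 hp
  have hne : Ideal.span {p} ≠ ⊥ := by
    rw [Ne, Ideal.span_singleton_eq_bot]
    exact hp.ne_zero
  let v : HeightOneSpectrum ℤ := ⟨Ideal.span {p}, hpp, hne⟩
  haveI hl' : w.asIdeal.LiesOver v.asIdeal := hl
  refine ⟨v, fun x => ?_⟩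
  rw [← HeightOneSpectrum.valuation_liesOver M v w x,
    ramificationIdx'_eq_ramificationIdx v.asIdeal w.asIdeal v.ne_bot, h1, pow_one]

end base


section comp

variable {L M Ω : Type} [Field L] [NumberField L] [Field M] [NumberField M] [Field Ω]
  [NumberField Ω] [Algebra L Ω] [Algebra M Ω] [IsGalois ℚ M]

/-- Restriction to `M`. -/
theorem exists_res (σ : Ω ≃ₐ[L] Ω) : ∃ τ : M ≃ₐ[ℚ] M, ∀ x : M,
    algebraMap M Ω (τ x) = σ (algebraMap M Ω x) :=
  ⟨(σ.restrictScalars ℚ).restrictNormal M, fun x =>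
    (σ.restrictScalars ℚ).restrictNormal_commutes M x⟩

theorem res_int {σ : Ω ≃ₐ[L] Ω} {τ : M ≃ₐ[ℚ] M}
    (h : ∀ x : M, algebraMap M Ω (τ x) = σ (algebraMap M Ω x)) (y : 𝓞 M) :
    algebraMap (𝓞 M) (𝓞 Ω) (τ • y) = σ • algebraMap (𝓞 M) (𝓞 Ω) y := by
  apply RingOfIntegers.ext
  exact h (y : M)

/-- The prime of `K` below a prime of `L`. -/
theorem exists_under (K L : Type) [Field K] [NumberField K] [Field L] [NumberField L]
    [Algebra K L] (w : HeightOneSpectrum (𝓞 L)) : ∃ v : HeightOneSpectrum (𝓞 K),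
      w.asIdeal.LiesOver v.asIdeal := by
  haveI := w.isPrime
  refine ⟨⟨w.asIdeal.under (𝓞 K), inferInstance, ?_⟩, ⟨rfl⟩⟩
  intro h
  exact w.ne_bot (Ideal.eq_bot_of_comap_eq_bot h)

/-- A prime of `L` above a prime of `K`. -/
theorem exists_above (K L : Type) [Field K] [NumberField K] [Field L] [NumberField L]
    [Algebra K L] (v : HeightOneSpectrum (𝓞 K)) : ∃ w : HeightOneSpectrum (𝓞 L),
      w.asIdeal.LiesOver v.asIdeal := by
  haveI := v.isPrime
  haveI := v.isMaximal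
  obtain ⟨Q, hQ, hQ'⟩ := Ideal.exists_ideal_over_maximal_of_isIntegral (S := 𝓞 L) v.asIdeal (by
    rw [(RingHom.injective_iff_ker_eq_bot _).1
      (FaithfulSMul.algebraMap_injective (𝓞 K) (𝓞 L))]
    exact bot_le)
  refine ⟨⟨Q, hQ.isPrime, ?_⟩, ⟨hQ'.symm⟩⟩
  rintro rfl
  apply v.ne_bot
  rw [← hQ', Ideal.comap_bot_of_injective _ (FaithfulSMul.algebraMap_injective (𝓞 K) (𝓞 L))]

theorem mem_of_liesOver {K L : Type} [Field K] [NumberField K] [Field L] [NumberField L]
    [Algebra K L] (v : HeightOneSpectrum (𝓞 K)) (w : HeightOneSpectrum (𝓞 L))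
    [w.asIdeal.LiesOver v.asIdeal] (x : 𝓞 K) :
    algebraMap (𝓞 K) (𝓞 L) x ∈ w.asIdeal ↔ x ∈ v.asIdeal := by
  rw [Ideal.over_def w.asIdeal v.asIdeal]
  rfl

theorem int_mem_of_liesOver {K L : Type} [Field K] [NumberField K] [Field L] [NumberField L]
    [Algebra K L] (v : HeightOneSpectrum (𝓞 K)) (w : HeightOneSpectrum (𝓞 L))
    [w.asIdeal.LiesOver v.asIdeal] (x : ℤ) :
    (x : 𝓞 L) ∈ w.asIdeal ↔ (x : 𝓞 K) ∈ v.asIdeal := by
  rw [← mem_of_liesOver v w, map_intCast]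

/-- `Ω / L` is Galois. -/
theorem gal_comp {γ : M} (hγ : IntermediateField.adjoin L {algebraMap M Ω γ} = ⊤) :
    IsGalois L Ω := by
  have hn : Normal ℚ M := inferInstance
  have h1 : ((minpoly ℚ γ).map (algebraMap ℚ M)).Splits := hn.splits γ
  have hsep : (minpoly ℚ γ).Separable := (minpoly.irreducible (Algebra.IsIntegral.isIntegral γ)).separable
  have e : ((minpoly ℚ γ).map (algebraMap ℚ L)).map (algebraMap L Ω) =
      ((minpoly ℚ γ).map (algebraMap ℚ M)).map (algebraMap M Ω) := by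
    rw [Polynomial.map_map, Polynomial.map_map]
    congr 1
    exact RingHom.ext_rat _ _
  have h2 : Polynomial.IsSplittingField L Ω ((minpoly ℚ γ).map (algebraMap ℚ L)) := by
    constructor
    · rw [e]
      exact h1.map _
    · rw [_root_.eq_top_iff]
      have h3 : (IntermediateField.adjoin L {algebraMap M Ω γ}).toSubalgebra = Algebra.adjoin L {algebraMap M Ω γ} :=
        IntermediateField.adjoin_simple_toSubalgebra_of_isAlgebraic (Algebra.IsAlgebraic.isAlgebraic _)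
      have h4 : Algebra.adjoin L {algebraMap M Ω γ} = ⊤ := by
        rw [← h3, hγ, IntermediateField.top_toSubalgebra]
      rw [← h4]
      apply Algebra.adjoin_mono
      rw [Set.singleton_subset_iff, Polynomial.mem_rootSet]
      constructor
      · exact ((Polynomial.map_ne_zero_iff (algebraMap ℚ L).injective).2 (minpoly.ne_zero (Algebra.IsIntegral.isIntegral γ)))
      · rw [Polynomial.aeval_def, ← Polynomial.eval_map, e, Polynomial.eval_map, Polynomial.eval₂_map]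
        have := Polynomial.hom_eval₂ (minpoly ℚ γ) (algebraMap ℚ M) (algebraMap M Ω) γ
        rw [← this]
        have h5 := minpoly.aeval ℚ γ
        rw [Polynomial.aeval_def] at h5
        rw [h5, map_zero]
  exact IsGalois.of_separable_splitting_field (p := (minpoly ℚ γ).map (algebraMap ℚ L)) hsep.map

/-- An automorphism which fixes `M` is trivial. -/
theorem fix_comp {γ : M} (hγ : IntermediateField.adjoin L {algebraMap M Ω γ} = ⊤)
    (σ : Ω ≃ₐ[L] Ω) (h : ∀ x : M, σ (algebraMap M Ω x) = algebraMap M Ω x) : σ = 1 := by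
  have h1 : ∀ y ∈ IntermediateField.adjoin L {algebraMap M Ω γ}, σ y = y := by
    intro y hy
    induction hy using IntermediateField.adjoin_induction with
    | mem x hx =>
      rw [Set.mem_singleton_iff] at hx
      rw [hx]
      exact h γ
    | algebraMap x => exact σ.commutes x
    | add x y _ _ hx hy => rw [map_add, hx, hy]
    | mul x y _ _ hx hy => rw [map_mul, hx, hy]
    | inv x _ hx => rw [map_inv₀, hx]
  ext y
  exact h1 y (by rw [hγ]; trivial)

theorem inertia_comp {γ : M} (hγ : IntermediateField.adjoin L {algebraMap M Ω γ} = ⊤)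
    {p : ℤ} (hp : Prime p) (hd : ¬ p ∣ discr M) (w : HeightOneSpectrum (𝓞 Ω))
    (hw : (p : 𝓞 Ω) ∈ w.asIdeal) (σ : Ω ≃ₐ[L] Ω)
    (hσ : ∀ x : 𝓞 M, σ • algebraMap (𝓞 M) (𝓞 Ω) x - algebraMap (𝓞 M) (𝓞 Ω) x ∈ w.asIdeal) :
    σ = 1 := by
  obtain ⟨τ, hτ⟩ := exists_res (M := M) σ
  obtain ⟨u, hu⟩ := exists_under M Ω w
  haveI := u.isPrime
  have h1 : τ = 1 := by
    refine inertia_trivial hp hd u.asIdeal ((int_mem_of_liesOver u w p).1 hw) τ fun x => ?_
    rw [← mem_of_liesOver u w, map_sub, res_int hτ]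
    exact hσ x
  refine fix_comp hγ σ fun x => ?_
  rw [← hτ, h1]
  rfl

/-- Primes over an unramified prime: the valuations do not change. -/
theorem val_comp {γ : M} (hγ : IntermediateField.adjoin L {algebraMap M Ω γ} = ⊤)
    {p : ℤ} (hp : Prime p) (hd : ¬ p ∣ discr M) (v : HeightOneSpectrum (𝓞 L))
    (w : HeightOneSpectrum (𝓞 Ω)) [w.asIdeal.LiesOver v.asIdeal]
    (hw : (p : 𝓞 Ω) ∈ w.asIdeal) (x : L) :
    w.valuation Ω (algebraMap L Ω x) = v.valuation L x := by
  haveI := gal_comp (Ω := Ω) (L := L) hγ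
  exact val_of_inertia v w (fun σ hσ => inertia_comp hγ hp hd w hw σ fun x => hσ _) x

end comp

end Pool.Agent.H62.QM
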