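import Pool.Agent.H62.QM.Ram

/-!
# Residue fields at primes of residue degree at most two
-/

set_option autoImplicit false
set_option linter.all false

open NumberField IsDedekindDomain Ideal Algebra
open scoped Pointwise

namespace Pool.Agent.H62.QM

section fin

variable {k : Type} [Field k] {p : ℕ} [hp : Fact p.Prime] (f : ZMod p →+* k)

include f in
theorem charP_of : CharP k p := charP_of_injective_ringHom f.injective p

theorem pow_p (f : ZMod p →+* k) (u : ZMod p) : f u ^ p = f u := by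
  rw [← map_pow, ZMod.pow_card]

theorem pow_t (h2 : p ≠ 2) {t : k} {c : ZMod p} (ht : t ^ 2 = f c) (hc : c ≠ 0) :
    t ^ (p ^ 2) = t := by
  obtain ⟨m, hm⟩ := hp.out.odd_of_ne_two h2
  have h1 : t ^ p = f (c ^ m) * t := by
    have h0 : t ^ p = t ^ (2 * m + 1) := congrArg (t ^ ·) hm
    rw [h0, pow_succ, pow_mul, ht, map_pow]
  have h3 : (c ^ m) ^ 2 = 1 := by
    rw [← pow_mul, mul_comm, show 2 * m = p - 1 by omega]
    exact ZMod.pow_card_sub_one_eq_one hc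
  rw [pow_two, pow_mul, h1, mul_pow, pow_p, h1, ← mul_assoc, ← map_mul, ← pow_two, h3, map_one,
    one_mul]

theorem repr_of_pow (h2 : p ≠ 2) {t : k} {c : ZMod p} (ht : t ^ 2 = f c) (hc : ¬ IsSquare c)
    {x : k} (hx : x ^ (p ^ 2) = x) : ∃ u v : ZMod p, x = f u + f v * t := by
  classical
  haveI := charP_of f
  have hc0 : c ≠ 0 := by
    rintro rfl
    exact hc ⟨0, by simp⟩
  have hinj : Function.Injective (fun q : ZMod p × ZMod p => f q.1 + f q.2 * t) := by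
    rintro ⟨u, v⟩ ⟨u', v'⟩ h
    simp only at h
    have h1 : f (v - v') * t = f (u' - u) := by
      rw [map_sub, map_sub]
      linear_combination h
    by_cases hv : v - v' = 0
    · rw [hv, map_zero, zero_mul] at h1
      have h3 : u' - u = 0 := f.injective (by rw [map_zero]; exact h1.symm)
      rw [sub_eq_zero] at hv h3
      rw [hv, h3]
    · exfalso
      apply hc
      refine ⟨(u' - u) / (v - v'), ?_⟩
      apply f.injective
      have hv' : f (v - v') ≠ 0 := by rwa [Ne, map_eq_zero]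
      rw [map_mul, map_div₀, ← h1, mul_div_cancel_left₀ _ hv', ← ht, pow_two]
  let s : Finset k := Finset.univ.image (fun q : ZMod p × ZMod p => f q.1 + f q.2 * t)
  have hs : s.card = p ^ 2 := by
    rw [Finset.card_image_of_injective _ hinj, Finset.card_univ, Fintype.card_prod, ZMod.card,
      pow_two]
  have hlt : 1 < p ^ 2 := Nat.one_lt_pow two_ne_zero hp.out.one_lt
  have hne : (Polynomial.X ^ (p ^ 2) - Polynomial.X : Polynomial k) ≠ 0 :=
    FiniteField.X_pow_card_sub_X_ne_zero k hlt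
  have hsub : s ⊆ (Polynomial.X ^ (p ^ 2) - Polynomial.X : Polynomial k).roots.toFinset := by
    intro y hy
    obtain ⟨⟨u, v⟩, -, rfl⟩ := Finset.mem_image.1 hy
    rw [Multiset.mem_toFinset, Polynomial.mem_roots hne, Polynomial.IsRoot.def]
    simp only [Polynomial.eval_sub, Polynomial.eval_pow, Polynomial.eval_X]
    rw [sub_eq_zero, add_pow_char_pow, mul_pow, pow_t f h2 ht hc0]
    have h3 : ∀ u : ZMod p, f u ^ p ^ 2 = f u := by
      intro u
      rw [pow_two, pow_mul, pow_p, pow_p]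
    rw [h3, h3]
  have hcard : (Polynomial.X ^ (p ^ 2) - Polynomial.X : Polynomial k).roots.toFinset.card ≤ s.card := by
    rw [hs]
    refine (Multiset.toFinset_card_le _).trans ((Polynomial.card_roots' _).trans ?_)
    rw [FiniteField.X_pow_card_sub_X_natDegree_eq k hlt]
  have heq := Finset.eq_of_subset_of_card_le hsub hcard
  have hx' : x ∈ (Polynomial.X ^ (p ^ 2) - Polynomial.X : Polynomial k).roots.toFinset := by
    rw [Multiset.mem_toFinset, Polynomial.mem_roots hne, Polynomial.IsRoot.def]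
    simp only [Polynomial.eval_sub, Polynomial.eval_pow, Polynomial.eval_X]
    rw [hx, sub_self]
  rw [← heq] at hx'
  obtain ⟨⟨u, v⟩, -, h⟩ := Finset.mem_image.1 hx'
  exact ⟨u, v, h.symm⟩

/-- Elements of the prime field are squares. -/
theorem sq_of (h2 : p ≠ 2) {t : k} {c : ZMod p} (ht : t ^ 2 = f c) (hc : ¬ IsSquare c)
    (m : ZMod p) : ∃ u v : ZMod p, (f u + f v * t) ^ 2 = f m := by
  by_cases hm : IsSquare m
  · obtain ⟨r, rfl⟩ := hm
    exact ⟨r, 0, by rw [map_zero, zero_mul, add_zero, map_mul, pow_two]⟩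
  · have hc0 : c ≠ 0 := by
      rintro rfl
      exact hc ⟨0, by simp⟩
    have hm0 : m ≠ 0 := by
      rintro rfl
      exact hm ⟨0, by simp⟩
    have h1 : IsSquare (m * c) := by
      have h3 := (quadraticChar_neg_one_iff_not_isSquare (a := m)).2 hm
      have h4 := (quadraticChar_neg_one_iff_not_isSquare (a := c)).2 hc
      rw [← quadraticChar_one_iff_isSquare (mul_ne_zero hm0 hc0), map_mul, h3, h4]
      norm_num
    obtain ⟨r, hr⟩ := h1
    refine ⟨0, r / c, ?_⟩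
    rw [map_zero, zero_add, mul_pow, ht, ← map_pow, ← map_mul]
    congr 1
    field_simp
    rw [pow_two, ← hr, mul_comm]

end fin

section res

variable {Ω : Type} [Field Ω] [NumberField Ω] {Q a : ℤ} {w : HeightOneSpectrum (𝓞 Ω)} {t : 𝓞 Ω}

theorem exists_hom (hQ : Prime Q) (hw : (Q : 𝓞 Ω) ∈ w.asIdeal) :
    ∃ f : ZMod Q.natAbs →+* (𝓞 Ω ⧸ w.asIdeal), ∀ n : ℤ, f n = Ideal.Quotient.mk _ (n : 𝓞 Ω) := by
  haveI := w.isPrime
  haveI : w.asIdeal.IsMaximal := w.isMaximal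
  letI : Field (𝓞 Ω ⧸ w.asIdeal) := Ideal.Quotient.field w.asIdeal
  have hp : Nat.Prime Q.natAbs := Int.prime_iff_natAbs_prime.1 hQ
  have h0 : ((Q.natAbs : ℕ) : 𝓞 Ω ⧸ w.asIdeal) = 0 := by
    have h1 : Ideal.Quotient.mk w.asIdeal (Q : 𝓞 Ω) = 0 := Ideal.Quotient.eq_zero_iff_mem.2 hw
    rw [map_intCast] at h1
    rcases Int.natAbs_eq Q with h | h
    · rw [h, Int.cast_natCast] at h1
      exact h1
    · rw [h, Int.cast_neg, Int.cast_natCast] at h1
      exact neg_eq_zero.1 h1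
  haveI : CharP (𝓞 Ω ⧸ w.asIdeal) Q.natAbs := (CharP.charP_iff_prime_eq_zero hp).2 h0
  refine ⟨ZMod.castHom dvd_rfl _, fun n => ?_⟩
  rw [map_intCast, map_intCast]

theorem not_sq (hQ : Prime Q) (hns : ∀ z : ℤ, ¬ Q ∣ z ^ 2 + a) :
    ¬ IsSquare (((-a : ℤ)) : ZMod Q.natAbs) := by
  rintro ⟨r, hr⟩
  obtain ⟨z, rfl⟩ := ZMod.intCast_surjective r
  apply hns z
  have h1 : (((z ^ 2 + a : ℤ)) : ZMod Q.natAbs) = 0 := by
    push_cast at hr ⊢
    rw [pow_two, ← hr]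
    ring
  rw [ZMod.intCast_zmod_eq_zero_iff_dvd] at h1
  exact Int.natAbs_dvd.1 h1

/-- Integers are squares modulo `w`. -/
theorem int_sq (hQ : Prime Q) (hQ2 : ¬ Q ∣ 2) (hw : (Q : 𝓞 Ω) ∈ w.asIdeal)
    (hns : ∀ z : ℤ, ¬ Q ∣ z ^ 2 + a) (ht : t ^ 2 + (a : 𝓞 Ω) ∈ w.asIdeal) (m : ℤ) :
    ∃ s : 𝓞 Ω, s ^ 2 - (m : 𝓞 Ω) ∈ w.asIdeal := by
  haveI := w.isPrime
  haveI : w.asIdeal.IsMaximal := w.isMaximal
  letI : Field (𝓞 Ω ⧸ w.asIdeal) := Ideal.Quotient.field w.asIdeal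
  obtain ⟨f, hf⟩ := exists_hom hQ hw
  haveI : Fact (Nat.Prime Q.natAbs) := ⟨Int.prime_iff_natAbs_prime.1 hQ⟩
  have h2 : Q.natAbs ≠ 2 := by
    intro h
    exact hQ2 (Int.natAbs_dvd.1 (by rw [h]; norm_num))
  have htt : (Ideal.Quotient.mk w.asIdeal t) ^ 2 = f ((-a : ℤ)) := by
    rw [hf, ← map_pow, Ideal.Quotient.eq]
    push_cast
    rwa [sub_neg_eq_add]
  obtain ⟨u, v, huv⟩ := sq_of f h2 htt (not_sq hQ hns) (m : ZMod Q.natAbs)
  obtain ⟨u, rfl⟩ := ZMod.intCast_surjective u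
  obtain ⟨v, rfl⟩ := ZMod.intCast_surjective v
  refine ⟨(u : 𝓞 Ω) + v * t, ?_⟩
  rw [← Ideal.Quotient.eq, map_pow, map_add, map_mul, ← hf, ← hf, ← hf, huv]

/-- Elements of the field with `Q ^ 2` elements. -/
theorem repr_mod (hQ : Prime Q) (hQ2 : ¬ Q ∣ 2) (hw : (Q : 𝓞 Ω) ∈ w.asIdeal)
    (hns : ∀ z : ℤ, ¬ Q ∣ z ^ 2 + a) (ht : t ^ 2 + (a : 𝓞 Ω) ∈ w.asIdeal) (x : 𝓞 Ω)
    (hx : x ^ (Q.natAbs ^ 2) - x ∈ w.asIdeal) :
    ∃ u v : ℤ, x - ((u : 𝓞 Ω) + v * t) ∈ w.asIdeal := by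
  haveI := w.isPrime
  haveI : w.asIdeal.IsMaximal := w.isMaximal
  letI : Field (𝓞 Ω ⧸ w.asIdeal) := Ideal.Quotient.field w.asIdeal
  obtain ⟨f, hf⟩ := exists_hom hQ hw
  haveI : Fact (Nat.Prime Q.natAbs) := ⟨Int.prime_iff_natAbs_prime.1 hQ⟩
  have h2 : Q.natAbs ≠ 2 := by
    intro h
    exact hQ2 (Int.natAbs_dvd.1 (by rw [h]; norm_num))
  have htt : (Ideal.Quotient.mk w.asIdeal t) ^ 2 = f ((-a : ℤ)) := by
    rw [hf, ← map_pow, Ideal.Quotient.eq]
    push_cast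
    rwa [sub_neg_eq_add]
  obtain ⟨u, v, huv⟩ := repr_of_pow f h2 htt (not_sq hQ hns) (x := Ideal.Quotient.mk _ x) (by
    rw [← map_pow, Ideal.Quotient.eq]
    exact hx)
  obtain ⟨u, rfl⟩ := ZMod.intCast_surjective u
  obtain ⟨v, rfl⟩ := ZMod.intCast_surjective v
  refine ⟨u, v, ?_⟩
  rw [← Ideal.Quotient.eq, map_add, map_mul, ← hf, ← hf, huv]

end res

section dens

variable {L M Ω : Type} [Field L] [NumberField L] [Field M] [NumberField M] [Field Ω]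
  [NumberField Ω] [Algebra L Ω] [Algebra M Ω] [IsGalois ℚ M]

/-- Density from equality of the residue fields. -/
theorem dens_comp {γ : M} (hγ : IntermediateField.adjoin L {algebraMap M Ω γ} = ⊤)
    {p : ℤ} (hp : Prime p) (hd : ¬ p ∣ discr M) (v : HeightOneSpectrum (𝓞 L))
    (w : HeightOneSpectrum (𝓞 Ω)) [w.asIdeal.LiesOver v.asIdeal]
    (hw : (p : 𝓞 Ω) ∈ w.asIdeal)
    (hres : ∀ x : 𝓞 M, ∃ y : 𝓞 L,
      algebraMap (𝓞 M) (𝓞 Ω) x - algebraMap (𝓞 L) (𝓞 Ω) y ∈ w.asIdeal) (s : Ω) (hs : s ≠ 0) :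
    ∃ s₀ : L, w.valuation Ω (s - algebraMap L Ω s₀) < w.valuation Ω s := by
  haveI := gal_comp (Ω := Ω) (L := L) hγ
  have hv := val_comp (L := L) hγ hp hd v w hw
  have hdec : ∀ σ : Ω ≃ₐ[L] Ω, (∀ x ∈ w.asIdeal, σ • x ∈ w.asIdeal) → σ = 1 := by
    intro σ hσ
    refine inertia_comp hγ hp hd w hw σ fun x => ?_
    obtain ⟨y, hy⟩ := hres x
    have h1 := hσ _ hy
    rw [smul_sub] at h1
    have h2 : σ • (algebraMap (𝓞 L) (𝓞 Ω) y) = algebraMap (𝓞 L) (𝓞 Ω) y := by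
      apply RingOfIntegers.ext
      exact σ.commutes (y : L)
    rw [h2] at h1
    have h3 := w.asIdeal.sub_mem h1 hy
    rwa [sub_sub_sub_cancel_right] at h3
  obtain ⟨u, hu⟩ := v.valuation_surjective L (w.valuation Ω s)
  have hs0 : w.valuation Ω s ≠ 0 := (Valuation.ne_zero_iff _).2 hs
  have hu0 : u ≠ 0 := by
    rintro rfl
    rw [map_zero] at hu
    exact hs0 hu.symm
  have huΩ : algebraMap L Ω u ≠ 0 := by rwa [Ne, map_eq_zero]
  have hwu : w.valuation Ω (algebraMap L Ω u) = w.valuation Ω s := by rw [hv, hu]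
  have h1 : w.valuation Ω (s / algebraMap L Ω u) ≤ 1 := by
    rw [map_div₀, hwu, div_self hs0]
  obtain ⟨r, hr⟩ := w.exists_valuation_sub_lt_of_integer (K := Ω) h1 1
  obtain ⟨y, hy⟩ := res_of_decomp v w hdec r
  refine ⟨u * algebraMap (𝓞 L) L y, ?_⟩
  have h2 : w.valuation Ω (algebraMap (𝓞 Ω) Ω (r - algebraMap (𝓞 L) (𝓞 Ω) y)) < 1 := by
    rw [HeightOneSpectrum.valuation_lt_one_iff_mem]
    exact hy
  have e : s - algebraMap L Ω (u * algebraMap (𝓞 L) L y) = algebraMap L Ω u *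
      (algebraMap (𝓞 Ω) Ω (r - algebraMap (𝓞 L) (𝓞 Ω) y) -
        (algebraMap (𝓞 Ω) Ω r - s / algebraMap L Ω u)) := by
    have e2 : algebraMap (𝓞 Ω) Ω (algebraMap (𝓞 L) (𝓞 Ω) y) = algebraMap L Ω (algebraMap (𝓞 L) L y) :=
      rfl
    rw [map_sub, e2, map_mul]
    field_simp
    ring
  rw [e, map_mul, hwu]
  have h3 : w.valuation Ω (algebraMap (𝓞 Ω) Ω (r - algebraMap (𝓞 L) (𝓞 Ω) y) -
        (algebraMap (𝓞 Ω) Ω r - s / algebraMap L Ω u)) < 1 :=
    lt_of_le_of_lt (Valuation.map_sub _ _ _) (max_lt h2 (by exact_mod_cast hr))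
  calc _ < w.valuation Ω s * 1 := mul_lt_mul_of_pos_left h3 (zero_lt_iff.2 hs0)
    _ = _ := mul_one _

end dens

end Pool.Agent.H62.QM
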